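import Pool.Agent.H609.XP.Block

/-!
# From initial intervals to intervals
-/

set_option autoImplicit false

namespace Pool.Agent.H609.RD

open Finset
open Pool.Agent.H609.XP (Er)

/-- the discrepancy for intervals `[u, v)` from that for `[0, y)` -/
lemma two_of_Er {b : ℕ} {α D : ℝ} {s L : ℕ}
    (h : ∀ y : ℝ, 0 ≤ y → y ≤ 1 → |Er (fun j => (b : ℝ) ^ j * α) y s L| ≤ D) {u v : ℝ}
    (hu : 0 ≤ u) (huv : u ≤ v) (hv : v ≤ 1) :
    |((({j ∈ range L | u ≤ Int.fract ((b : ℝ) ^ (s + j) * α) ∧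
      Int.fract ((b : ℝ) ^ (s + j) * α) < v} : Finset ℕ).card : ℕ) : ℝ) - (v - u) * L| ≤ 2 * D := by
  classical
  have h1 := h u hu (by linarith)
  have h2 := h v (by linarith) hv
  have h3 : ({j ∈ range L | u ≤ Int.fract ((b : ℝ) ^ (s + j) * α) ∧
      Int.fract ((b : ℝ) ^ (s + j) * α) < v} : Finset ℕ).card +
      ({j ∈ range L | Int.fract ((b : ℝ) ^ (s + j) * α) < u} : Finset ℕ).card =
      ({j ∈ range L | Int.fract ((b : ℝ) ^ (s + j) * α) < v} : Finset ℕ).card := by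
    rw [← card_union_of_disjoint]
    · congr 1
      ext j
      simp only [mem_union, mem_filter, mem_range]
      constructor
      · rintro (⟨h4, h5, h6⟩ | ⟨h4, h5⟩)
        · exact ⟨h4, h6⟩
        · exact ⟨h4, lt_of_lt_of_le h5 huv⟩
      · rintro ⟨h4, h5⟩
        rcases lt_or_ge (Int.fract ((b : ℝ) ^ (s + j) * α)) u with h6 | h6
        · exact Or.inr ⟨h4, h6⟩
        · exact Or.inl ⟨h4, h6, h5⟩
    · rw [disjoint_left]
      intro j hj hj'
      rw [mem_filter] at hj hj'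
      exact absurd hj'.2 (not_lt.2 hj.2.1)
  have h4 : ((({j ∈ range L | u ≤ Int.fract ((b : ℝ) ^ (s + j) * α) ∧
      Int.fract ((b : ℝ) ^ (s + j) * α) < v} : Finset ℕ).card : ℕ) : ℝ) - (v - u) * L =
      Er (fun j => (b : ℝ) ^ j * α) v s L - Er (fun j => (b : ℝ) ^ j * α) u s L := by
    unfold Er
    rw [← h3]
    push_cast
    ring
  rw [h4]
  have h5 := abs_sub (Er (fun j => (b : ℝ) ^ j * α) v s L) (Er (fun j => (b : ℝ) ^ j * α) u s L)
  linarith

end Pool.Agent.H609.RD
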