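import Pool.Agent.H609.RD.Stm2
import Pool.Agent.H609.RD.Win

set_option autoImplicit false

namespace Pool.Agent.H609.RD

open Finset

/-- the final theorem from its parts -/
theorem final (hFIN : S_FIN) (hCOR : S_COR) (hDEG : S_DEG2) (hEX : S_EX) {b : ℕ} (hb : 2 ≤ b)
    {p : ℕ} (hp : p.Prime) (hp2 : Odd p) (hpb : ¬ p ∣ b) {d : ℕ} (hd : 2 ≤ d) (hpd : ¬ p ∣ d) :
    (∀ n r : ℕ, ∃ m t : ℕ, 1 ≤ t ∧ t ≤ p ^ (d * r) ∧ p ^ (d * r) * m = b ^ (d * n) + d ^ 2 * t) ∧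
    (∃ C : ℝ, 0 < C ∧ ∀ n r m t : ℕ, 1 ≤ r → C * r ≤ n → 1 ≤ t → t ≤ p ^ (d * r) →
      p ^ (d * r) * m = b ^ (d * n) + d ^ 2 * t →
      (minpoly ℚ ((m : ℝ) ^ (1 / (d : ℝ)))).natDegree = d ∧
      ∀ (s L : ℕ) (u v : ℝ), 0 ≤ u → u ≤ v → v ≤ 1 →
        |((({j ∈ range L | u ≤ Int.fract ((b : ℝ) ^ (s + j) * (m : ℝ) ^ (1 / (d : ℝ))) ∧
          Int.fract ((b : ℝ) ^ (s + j) * (m : ℝ) ^ (1 / (d : ℝ))) < v} : Finset ℕ).card : ℕ) : ℝ) -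
          (v - u) * L| ≤ C * ((((s : ℝ) + L) / n + 1) * L / (p : ℝ) ^ r +
            ((p : ℝ) ^ r + r * (((s : ℝ) + L) / n + 1)) * (L / n + 1))) ∧
    (∀ ε : ℝ, 0 < ε → ε < 1 → ∃ C : ℝ, 0 < C ∧ ∃ n₀ : ℕ, ∀ n : ℕ, n₀ ≤ n →
      ∃ r : ℕ, 1 ≤ r ∧ (p : ℝ) ^ r ≤ n ∧
        ∀ m t : ℕ, 1 ≤ t → t ≤ p ^ (d * r) → p ^ (d * r) * m = b ^ (d * n) + d ^ 2 * t →
          (minpoly ℚ ((m : ℝ) ^ (1 / (d : ℝ)))).natDegree = d ∧
          ∀ N : ℕ, n ≤ N → (N : ℝ) ≤ (n : ℝ) ^ (2 - ε) → ∀ u v : ℝ, 0 ≤ u → u ≤ v → v ≤ 1 →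
            |((({j ∈ range N | u ≤ Int.fract ((b : ℝ) ^ j * (m : ℝ) ^ (1 / (d : ℝ))) ∧
              Int.fract ((b : ℝ) ^ j * (m : ℝ) ^ (1 / (d : ℝ))) < v} : Finset ℕ).card : ℕ) : ℝ) -
              (v - u) * N| ≤ C * (N : ℝ) ^ (1 - ε / 4)) := by
  have hb0 : 1 ≤ b := by omega
  -- the degree, if `C r ≤ n` with `C ≥ d p + d ^ 2`
  have hdeg : ∀ n r m t : ℕ, ((d * p + d ^ 2) * r : ℕ) ≤ n → 1 ≤ r → 1 ≤ t → t ≤ p ^ (d * r) →
      p ^ (d * r) * m = b ^ (d * n) + d ^ 2 * t →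
      (minpoly ℚ ((m : ℝ) ^ (1 / (d : ℝ)))).natDegree = d := by
    intro n r m t hn hr ht ht2 hm
    refine hDEG (b ^ n) d m (p ^ r) (d ^ 2 * t) hd (Nat.one_le_pow _ _ hb0)
      (Nat.one_le_pow _ _ hp.pos) ?_ ?_ ?_
    · exact Nat.mul_pos (by positivity) ht
    · calc d ^ 2 * t ≤ d ^ 2 * p ^ (d * r) := Nat.mul_le_mul_left _ ht2
        _ ≤ 2 ^ (d ^ 2) * (2 ^ p) ^ (d * r) :=
          Nat.mul_le_mul (Nat.lt_two_pow_self).le (Nat.pow_le_pow_left (Nat.lt_two_pow_self).le _)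
        _ = 2 ^ (d ^ 2 + p * (d * r)) := by rw [← pow_mul, ← pow_add]
        _ ≤ 2 ^ n := by
          apply Nat.pow_le_pow_right (by norm_num)
          have h1 : d ^ 2 ≤ d ^ 2 * r := Nat.le_mul_of_pos_right _ hr
          calc d ^ 2 + p * (d * r) ≤ d ^ 2 * r + p * (d * r) := by omega
            _ = (d * p + d ^ 2) * r := by ring
            _ ≤ n := hn
        _ ≤ b ^ n := Nat.pow_le_pow_left hb _
    · rw [← pow_mul, ← pow_mul, mul_comm r d, mul_comm n d]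
      exact hm
  refine ⟨fun n r => ?_, ?_, ?_⟩
  · obtain ⟨t, m, h1, h2, h3⟩ := hEX p d (d * r) (b ^ (d * n)) hp hpd
    exact ⟨m, t, h1, h2, h3⟩
  · obtain ⟨C, hC, h⟩ := hFIN b p d hb hp hp2 hpb hd
    refine ⟨2 * C + (d * p + d ^ 2 : ℕ), by positivity, fun n r m t hr hrn ht ht2 hm => ?_⟩
    have hrR : (1 : ℝ) ≤ r := by exact_mod_cast hr
    have h1 : C * r ≤ n := by
      have h2 : (0 : ℝ) ≤ (C + (d * p + d ^ 2 : ℕ)) * r := by positivity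
      nlinarith
    have h2 : ((d * p + d ^ 2) * r : ℕ) ≤ n := by
      have h3 : (((d * p + d ^ 2 : ℕ)) : ℝ) * r ≤ n := by
        have h4 : (0 : ℝ) ≤ 2 * C * r := by positivity
        nlinarith
      exact_mod_cast h3
    refine ⟨hdeg n r m t h2 hr ht ht2 hm, fun s L u v hu huv hv => ?_⟩
    have h3 := two_of_Er (b := b) (α := (m : ℝ) ^ (1 / (d : ℝ))) (s := s) (L := L)
      (fun y hy0 hy1 => h n r m t hr h1 ht ht2 hm y hy0 hy1 s L) hu huv hv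
    refine h3.trans ?_
    have h4 : (0 : ℝ) ≤ (((s : ℝ) + L) / n + 1) * L / (p : ℝ) ^ r +
        ((p : ℝ) ^ r + r * (((s : ℝ) + L) / n + 1)) * (L / n + 1) := by positivity
    have h5 : (0 : ℝ) ≤ ((d * p + d ^ 2 : ℕ) : ℝ) := by positivity
    nlinarith
  · intro ε hε hε1
    obtain ⟨C, hC, n₀, h⟩ := hCOR b p d hb hp hp2 hpb hd ε hε hε1
    -- `d ^ 2 n ^ d ≤ 2 ^ n` for large `n`
    have hd2 : (0 : ℝ) < 1 / (d : ℝ) ^ 2 := by
      have : (0 : ℝ) < d := by exact_mod_cast (by omega : 0 < d)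
      positivity
    obtain ⟨n₁, hn₁⟩ := Filter.eventually_atTop.1
      ((tendsto_pow_const_div_const_pow_of_one_lt d (show (1 : ℝ) < 2 by norm_num)).eventually
        (Iic_mem_nhds hd2))
    refine ⟨2 * C, by positivity, max n₀ n₁, fun n hn => ?_⟩
    obtain ⟨r, hr, -, hprn, hall⟩ := h n (le_of_max_le_left hn)
    have h1 : d ^ 2 * n ^ d ≤ 2 ^ n := by
      have h2 : (n : ℝ) ^ d / 2 ^ n ≤ 1 / (d : ℝ) ^ 2 := hn₁ n (le_of_max_le_right hn)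
      have hd0 : (0 : ℝ) < (d : ℝ) ^ 2 := by
        have : (0 : ℝ) < d := by exact_mod_cast (by omega : 0 < d)
        positivity
      rw [div_le_div_iff₀ (by positivity) hd0, one_mul] at h2
      have h3 : (d : ℝ) ^ 2 * (n : ℝ) ^ d ≤ 2 ^ n := by linarith
      exact_mod_cast h3
    have hprn' : p ^ r ≤ n := by exact_mod_cast hprn
    refine ⟨r, hr, hprn, fun m t ht ht2 hm => ⟨?_, fun N hnN hN u v hu huv hv => ?_⟩⟩
    · refine hDEG (b ^ n) d m (p ^ r) (d ^ 2 * t) hd (Nat.one_le_pow _ _ hb0)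
        (Nat.one_le_pow _ _ hp.pos) ?_ ?_ ?_
      · exact Nat.mul_pos (by positivity) ht
      · calc d ^ 2 * t ≤ d ^ 2 * (p ^ r) ^ d := by
              apply Nat.mul_le_mul_left
              rw [← pow_mul, mul_comm r d]
              exact ht2
          _ ≤ d ^ 2 * n ^ d := Nat.mul_le_mul_left _ (Nat.pow_le_pow_left hprn' _)
          _ ≤ 2 ^ n := h1
          _ ≤ b ^ n := Nat.pow_le_pow_left hb _
      · rw [← pow_mul, ← pow_mul, mul_comm r d, mul_comm n d]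
        exact hm
    · have h3 := two_of_Er (b := b) (α := (m : ℝ) ^ (1 / (d : ℝ))) (s := 0) (L := N)
        (fun y hy0 hy1 => hall m t ht ht2 hm y hy0 hy1 N hnN hN) hu huv hv
      simp only [zero_add] at h3
      linarith

end Pool.Agent.H609.RD
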