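import Pool.Agent.H609.RD.P_EX

/-!
# The integer `m` is determined by `n` and `r`
-/

set_option autoImplicit false

namespace Pool.Agent.H609.RD

theorem t_EX2 {p d : ℕ} (hp : p.Prime) (hpd : ¬ p ∣ d) (e B : ℕ) :
    ∃! m : ℕ, ∃ t : ℕ, 1 ≤ t ∧ t ≤ p ^ e ∧ p ^ e * m = B + d ^ 2 * t := by
  obtain ⟨t, m, h1, h2, h3⟩ := t_EX p d e B hp hpd
  refine ⟨m, ⟨t, h1, h2, h3⟩, ?_⟩
  rintro m' ⟨t', h1', h2', h3'⟩
  have hcop : Nat.Coprime (p ^ e) (d ^ 2) :=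
    Nat.Coprime.pow _ _ ((Nat.Prime.coprime_iff_not_dvd hp).2 hpd)
  have key : ∀ (a a' k k' : ℕ), 1 ≤ a → a' ≤ p ^ e → p ^ e * k = B + d ^ 2 * a →
      p ^ e * k' = B + d ^ 2 * a' → a ≤ a' → a = a' := by
    intro a a' k k' ha ha' hk hk' hle
    obtain ⟨c, rfl⟩ : ∃ c, a' = a + c := ⟨a' - a, by omega⟩
    have h4 : p ^ e ∣ d ^ 2 * c := by
      have h5 : p ^ e * k' = p ^ e * k + d ^ 2 * c := by rw [hk, hk']; ring
      exact (Nat.dvd_add_right (Dvd.intro k rfl)).1 (h5 ▸ Dvd.intro k' rfl)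
    have h6 : p ^ e ∣ c := hcop.dvd_of_dvd_mul_left h4
    rcases Nat.eq_zero_or_pos c with h7 | h7
    · omega
    · have := Nat.le_of_dvd h7 h6
      omega
  have htt : t = t' := by
    rcases le_total t t' with h | h
    · exact key t t' m m' h1 h2' h3 h3' h
    · exact (key t' t m' m h1' h2 h3' h3 h).symm
  rw [← htt, ← h3] at h3'
  exact Nat.eq_of_mul_eq_mul_left (Nat.pow_pos hp.pos) h3'

end Pool.Agent.H609.RD
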