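import Pool.Agent.H609.RD.Stm
import Pool.Agent.H609.RI.P_ROOT
import Pool.Agent.H609.RI.P_BK1

set_option autoImplicit false
set_option maxHeartbeats 4000000

namespace Pool.Agent.H609.RD

open Finset
open Pool.Agent.H609.XP (Er)
open Pool.Agent.H609.RI (M Coef)

namespace P_BLO

lemma split_pow {p : ℤ} (v : ℕ) : ∀ U : ℤ, ¬ p ^ (v + 1) ∣ U →
    ∃ w : ℕ, w ≤ v ∧ ∃ V : ℤ, U = p ^ w * V ∧ ¬ p ∣ V := by
  induction v with
  | zero =>
    intro U hU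
    exact ⟨0, le_rfl, U, by simp, by simpa using hU⟩
  | succ v ih =>
    intro U hU
    by_cases h : p ∣ U
    · obtain ⟨U', rfl⟩ := h
      have h2 : ¬ p ^ (v + 1) ∣ U' := by
        intro h3
        apply hU
        rw [pow_succ' p (v + 1)]
        exact mul_dvd_mul_left p h3
      obtain ⟨w, hw, V, hV, hpV⟩ := ih U' h2
      exact ⟨w + 1, by omega, V, by rw [hV]; ring, hpV⟩
    · exact ⟨0, by omega, U, by simp, h⟩

lemma not_dvd_U {p r v : ℕ} (hp : p.Prime) (hvr : v < r) {t U N : ℤ} {κ : ℕ}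
    (ht : ¬ (p : ℤ) ∣ t) (h : (p : ℤ) ^ r ∣ U - t ^ κ * N) (hN : ¬ (p : ℤ) ^ (v + 1) ∣ N) :
    ¬ (p : ℤ) ^ (v + 1) ∣ U := by
  intro hU
  apply hN
  have hpZ : Prime (p : ℤ) := Nat.prime_iff_prime_int.1 hp
  have h1 : (p : ℤ) ^ (v + 1) ∣ U - t ^ κ * N := (pow_dvd_pow _ hvr).trans h
  have h2 : (p : ℤ) ^ (v + 1) ∣ t ^ κ * N := by
    have := dvd_sub hU h1
    rwa [sub_sub_cancel] at this
  have hco : IsCoprime ((p : ℤ) ^ (v + 1)) (t ^ κ) := by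
    apply IsCoprime.pow
    exact (Prime.coprime_iff_not_dvd hpZ).2 ht
  exact hco.dvd_of_dvd_mul_left h2

end P_BLO

open P_BLO in
theorem t_BLO (h1 : S_WID) (h2 : S_VAL4) (h3 : S_TL) : S_BLO := by
  intro b p d hb hp hp2 hpb hd
  obtain ⟨C₁, hC₁, hBK⟩ := Pool.Agent.H609.RI.t_BK1 b p hb hp hp2 hpb
  refine ⟨C₁ * (d + 3) + d, by positivity, ?_⟩
  intro n r m t h hr ht hhd hdt hm y hy0 hy1 κ s L hs hsL
  have hpZ : Prime (p : ℤ) := Nat.prime_iff_prime_int.1 hp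
  have hp0 : (0 : ℝ) < p := by exact_mod_cast hp.pos
  have hp1 : (1 : ℝ) ≤ p := by exact_mod_cast hp.one_le
  have hb0 : (0 : ℝ) < b := by positivity
  have hbR : (2 : ℝ) ≤ b := by exact_mod_cast hb
  have hb1 : (1 : ℝ) ≤ b := by linarith
  have hd0 : d ≠ 0 := by omega
  have hdR : (2 : ℝ) ≤ d := by exact_mod_cast hd
  -- p does not divide d, t
  have hpB : ¬ p ∣ b ^ (d * n) := fun h => hpb (hp.dvd_of_dvd_pow h)
  have hpdt : ¬ p ∣ d ^ 2 * t := by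
    intro h4
    apply hpB
    have h5 : p ∣ b ^ (d * n) + d ^ 2 * t := by
      rw [← hm]
      exact (dvd_pow_self p (by positivity)).mul_right m
    exact (Nat.dvd_add_left h4).1 h5
  have hpd : ¬ p ∣ d := fun h4 => hpdt ((h4.trans (dvd_pow_self d two_ne_zero)).mul_right t)
  have hpt : ¬ p ∣ t := fun h4 => hpdt (h4.mul_left _)
  obtain ⟨a, ha, hsum⟩ := Pool.Agent.H609.RI.t_ROOT d (by omega)
  obtain ⟨v, hv1, hv2⟩ := h2 p d a hp hd hpd ha κ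
  have hpr0 : (0 : ℝ) < (p : ℝ) ^ r := by positivity
  have hL0 : (0 : ℝ) ≤ L := Nat.cast_nonneg _
  have hκ0 : (0 : ℝ) ≤ κ := Nat.cast_nonneg _
  have hv1R : (p : ℝ) ^ v ≤ d * (κ + 1) := by
    have : (p : ℝ) ^ v ≤ d * κ + 1 := by exact_mod_cast hv1
    nlinarith
  have hmain0 : 0 ≤ ((κ : ℝ) + 1) * L / (p : ℝ) ^ r := by positivity
  have hh0 : (0 : ℝ) ≤ (h : ℝ) * (κ + 1) := by positivity
  rcases le_or_gt r v with hrv | hrv
  · -- the easy case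
    have e1 : |Er (fun j => (b : ℝ) ^ j * ((m : ℝ) ^ (1 / (d : ℝ)) / (b : ℝ) ^ n)) y s L| ≤ L :=
      Pool.Agent.H609.XP.Er_le _ hy0 hy1 s L
    have e2 : (p : ℝ) ^ r ≤ d * (κ + 1) := (pow_le_pow_right₀ hp1 hrv).trans hv1R
    have e3 : (L : ℝ) ≤ d * (((κ : ℝ) + 1) * L / (p : ℝ) ^ r) := by
      rw [← mul_div_assoc, le_div_iff₀ hpr0]
      nlinarith
    calc _ ≤ (L : ℝ) := e1
      _ ≤ d * (((κ : ℝ) + 1) * L / (p : ℝ) ^ r) := e3
      _ ≤ (C₁ * (d + 3) + d) * (((κ : ℝ) + 1) * L / (p : ℝ) ^ r) := by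
          apply mul_le_mul_of_nonneg_right _ hmain0
          nlinarith
      _ ≤ _ := by
          apply mul_le_mul_of_nonneg_left _ (by positivity)
          linarith
  · -- the main case
    set B : ℕ := b ^ (d * n) with hB
    have hB0 : (0 : ℝ) < (B : ℝ) := by rw [hB]; push_cast; positivity
    set S : ℝ := (1 + (d : ℝ) ^ 2 * ((t : ℝ) / B)) ^ (1 / (d : ℝ)) with hS
    have h4dt : 4 * (d ^ 2 * t) ≤ B := by
      calc 4 * (d ^ 2 * t) ≤ b ^ 2 * b ^ h := Nat.mul_le_mul (by nlinarith) hdt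
        _ = b ^ (h + 2) := by ring
        _ ≤ B := Nat.pow_le_pow_right (by omega) hhd
    have hHS : HasSum (fun k : ℕ => ((a k : ℤ) : ℝ) * ((t : ℝ) / B) ^ k) S := by
      apply hsum _ (by positivity)
      rw [← mul_div_assoc, div_le_one hB0]
      have : (4 * (d ^ 2 * t) : ℝ) ≤ B := by exact_mod_cast h4dt
      linarith
    have htl := h3 d a (by omega) ha t B ht (by omega) S hHS κ
    set U : ℤ := M (fun k => a k * (t : ℤ) ^ k) (B : ℤ) κ with hU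
    have hwid := h1 d a ha (t : ℤ) (B : ℤ) ((p : ℤ) ^ r) (by
      refine (pow_dvd_pow (p : ℤ) (Nat.le_mul_of_pos_left r (by omega : 0 < d))).trans ?_
      refine ⟨(m : ℤ), ?_⟩
      have := congrArg (fun x : ℕ => (x : ℤ)) hm
      push_cast at this
      rw [this]) κ
    have hpU : ¬ (p : ℤ) ^ (v + 1) ∣ U :=
      not_dvd_U hp hrv (fun h4 => hpt (by exact_mod_cast h4)) hwid hv2
    obtain ⟨w, hwv, V, hUV, hpV⟩ := split_pow v U hpU
    -- the root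
    have hroot : (m : ℝ) ^ (1 / (d : ℝ)) / (b : ℝ) ^ n = S / (p : ℝ) ^ r := by
      have e1 : (m : ℝ) = ((b : ℝ) ^ n / (p : ℝ) ^ r) ^ d * (1 + (d : ℝ) ^ 2 * ((t : ℝ) / B)) := by
        have e2 : (p : ℝ) ^ (d * r) * m = (B : ℝ) + (d : ℝ) ^ 2 * t := by
          have := congrArg (fun x : ℕ => (x : ℝ)) hm
          push_cast at this
          rw [this]
        have e3 : (B : ℝ) = ((b : ℝ) ^ n) ^ d := by
          rw [hB]; push_cast; rw [← pow_mul, mul_comm]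
        have e4 : (p : ℝ) ^ (d * r) = ((p : ℝ) ^ r) ^ d := by
          rw [← pow_mul, mul_comm]
        rw [div_pow, ← e3, ← e4, div_mul_eq_mul_div, eq_div_iff (by positivity)]
        rw [mul_comm (m : ℝ), e2]
        field_simp
      have e5 : (m : ℝ) ^ (1 / (d : ℝ)) = ((b : ℝ) ^ n / (p : ℝ) ^ r) * S := by
        rw [e1, Real.mul_rpow (by positivity) (by positivity), one_div,
          Real.pow_rpow_inv_natCast (by positivity) hd0, hS, one_div]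
      rw [e5]
      field_simp
    have hkey : ∀ t', t' < d * n → t' + (2 + h * (κ + 1)) ≤ d * n →
        |(fun j => (b : ℝ) ^ j * ((m : ℝ) ^ (1 / (d : ℝ)) / (b : ℝ) ^ n)) (d * n * κ + t') -
          (b : ℝ) ^ t' * ((V : ℤ) : ℝ) / (p : ℝ) ^ (r - w)| ≤ 1 / (2 * (p : ℝ) ^ (r - w)) := by
      intro t' _ ht'
      have hprw : (p : ℝ) ^ r = (p : ℝ) ^ w * (p : ℝ) ^ (r - w) := by
        rw [← pow_add]; congr 1; omega
      have hpw0 : (0 : ℝ) < (p : ℝ) ^ w := by positivity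
      have hprw0 : (0 : ℝ) < (p : ℝ) ^ (r - w) := by positivity
      have hUR : ((U : ℤ) : ℝ) = (p : ℝ) ^ w * (V : ℝ) := by
        rw [hUV]; push_cast; ring
      have e1 : (fun j => (b : ℝ) ^ j * ((m : ℝ) ^ (1 / (d : ℝ)) / (b : ℝ) ^ n)) (d * n * κ + t') -
          (b : ℝ) ^ t' * ((V : ℤ) : ℝ) / (p : ℝ) ^ (r - w)
          = (b : ℝ) ^ t' * (S * (B : ℝ) ^ κ - (U : ℝ)) / (p : ℝ) ^ r := by
        simp only
        rw [hroot, hUR, hB, hprw]
        push_cast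
        rw [pow_add, pow_mul (b : ℝ) (d * n) κ]
        field_simp
      rw [e1, abs_div, abs_mul, abs_of_pos hpr0, abs_of_pos (by positivity : (0 : ℝ) < (b : ℝ) ^ t')]
      have e2 : ((d : ℝ) ^ 2 * t) ^ (κ + 1) ≤ (b : ℝ) ^ (h * (κ + 1)) := by
        rw [pow_mul]
        apply pow_le_pow_left₀ (by positivity)
        exact_mod_cast hdt
      have e3 : (b : ℝ) ^ t' * (b : ℝ) ^ (h * (κ + 1)) * 4 ≤ B := by
        have e4 : (b : ℝ) ^ (t' + (2 + h * (κ + 1))) ≤ (B : ℝ) := by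
          rw [hB]; push_cast
          exact pow_le_pow_right₀ hb1 ht'
        have e5 : (b : ℝ) ^ (t' + (2 + h * (κ + 1))) =
            (b : ℝ) ^ t' * (b : ℝ) ^ (h * (κ + 1)) * (b : ℝ) ^ 2 := by ring
        rw [e5] at e4
        have e6 : (4 : ℝ) ≤ (b : ℝ) ^ 2 := by nlinarith
        have e7 : 0 < (b : ℝ) ^ t' * (b : ℝ) ^ (h * (κ + 1)) := by positivity
        exact (mul_le_mul_of_nonneg_left e6 e7.le).trans e4
      have e8 : (b : ℝ) ^ t' * |S * (B : ℝ) ^ κ - (U : ℝ)| ≤ 1 / 2 := by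
        calc (b : ℝ) ^ t' * |S * (B : ℝ) ^ κ - (U : ℝ)|
            ≤ (b : ℝ) ^ t' * (2 * ((d : ℝ) ^ 2 * t) ^ (κ + 1) / B) := by gcongr
          _ ≤ (b : ℝ) ^ t' * (2 * (b : ℝ) ^ (h * (κ + 1)) / B) := by gcongr
          _ = 2 * ((b : ℝ) ^ t' * (b : ℝ) ^ (h * (κ + 1))) / B := by ring
          _ ≤ 1 / 2 := by
            rw [div_le_iff₀ hB0]
            linarith [e3]
      calc _ ≤ (1 / 2) / (p : ℝ) ^ r := div_le_div_of_nonneg_right e8 hpr0.le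
        _ ≤ (1 / 2) / (p : ℝ) ^ (r - w) := by
          apply div_le_div_of_nonneg_left (by norm_num) hprw0
          exact pow_le_pow_right₀ hp1 (Nat.sub_le _ _)
        _ = _ := by rw [one_div, one_div, div_eq_mul_inv, mul_inv]
    have hfin := hBK (d * n) (2 + h * (κ + 1)) (d * n * κ) (r - w)
      (fun j => (b : ℝ) ^ j * ((m : ℝ) ^ (1 / (d : ℝ)) / (b : ℝ) ^ n)) V hpV hkey y hy0 hy1 s L hs hsL
    have hprw : (p : ℝ) ^ r = (p : ℝ) ^ w * (p : ℝ) ^ (r - w) := by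
      rw [← pow_add]; congr 1; omega
    have f1 : (L : ℝ) / (p : ℝ) ^ (r - w) ≤ d * (((κ : ℝ) + 1) * L / (p : ℝ) ^ r) := by
      have e1 : (L : ℝ) / (p : ℝ) ^ (r - w) = (p : ℝ) ^ w * (L / (p : ℝ) ^ r) := by
        rw [hprw]; field_simp
      rw [e1]
      have e2 : (p : ℝ) ^ w ≤ d * (κ + 1) := (pow_le_pow_right₀ hp1 hwv).trans hv1R
      calc _ ≤ (d * ((κ : ℝ) + 1)) * (L / (p : ℝ) ^ r) := by gcongr
        _ = _ := by ring
    have f2 : (p : ℝ) ^ (r - w) ≤ (p : ℝ) ^ r := pow_le_pow_right₀ hp1 (Nat.sub_le _ _)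
    have f3 : (1 : ℝ) ≤ (p : ℝ) ^ r := one_le_pow₀ hp1
    have f4 : (((2 + h * (κ + 1) : ℕ)) : ℝ) ≤ 2 * (p : ℝ) ^ r + h * (κ + 1) := by
      push_cast; linarith
    have hpr1 : 0 ≤ (p : ℝ) ^ r := hpr0.le
    set P : ℝ := ((κ : ℝ) + 1) * L / (p : ℝ) ^ r with hP
    set Q : ℝ := (p : ℝ) ^ r with hQ
    set R : ℝ := (h : ℝ) * (κ + 1) with hR
    have g1 : (L : ℝ) / (p : ℝ) ^ (r - w) + (p : ℝ) ^ (r - w) + (((2 + h * (κ + 1) : ℕ)) : ℝ)
        ≤ d * P + 3 * Q + R := by linarith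
    have g2 : d * P + 3 * Q + R ≤ (d + 3) * (P + Q + R) := by nlinarith
    have g3 : 0 ≤ (d : ℝ) * (P + Q + R) := by positivity
    calc _ ≤ C₁ * ((L : ℝ) / (p : ℝ) ^ (r - w) + (p : ℝ) ^ (r - w) + (((2 + h * (κ + 1) : ℕ)) : ℝ)) := hfin
      _ ≤ C₁ * ((d + 3) * (P + Q + R)) := mul_le_mul_of_nonneg_left (g1.trans g2) hC₁.le
      _ ≤ (C₁ * (d + 3) + d) * (P + Q + R) := by linarith

end Pool.Agent.H609.RD
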