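import Pool.Agent.H609.RD.Stm3

/-!
# The digits of the `d`-th roots of explicit integers: the first `N` digits (proof of `S_COR2`, explicit `r`)
-/

set_option autoImplicit false

namespace Pool.Agent.H609.RD

open Finset
open Pool.Agent.H609.XP (Er)

namespace P_COR2

/-- the numerical inequality -/
theorem num {x X q R z P : ℝ} (hx : 1 ≤ x) (hX : x ≤ X) (hq : 0 < q) (hR : 0 ≤ R) (hz : 1 ≤ z)
    (hP : 0 ≤ P) (h1 : q * z ≤ x) (h2 : x ≤ P * (q * z)) (h3 : R ≤ z) (h4 : X * z ^ 2 ≤ x ^ 2) :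
    ((0 + X) / x + 1) * X / q + (q + R * ((0 + X) / x + 1)) * (X / x + 1) ≤
      (2 * P + 6) * (X / z) := by
  have hx0 : 0 < x := by linarith
  have hX0 : 0 < X := by linarith
  have hz0 : 0 < z := by linarith
  have a1 : X / x + 1 ≤ 2 * X / x := by
    have : 1 ≤ X / x := by rwa [le_div_iff₀ hx0, one_mul]
    have e : 2 * X / x = X / x + X / x := by ring
    rw [e]
    linarith
  have a0 : 0 < X / x + 1 := by positivity
  have a2 : (0 + X) / x + 1 ≤ 2 * X / x := by rwa [zero_add]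
  have b1 : ((0 + X) / x + 1) * X / q ≤ 2 * P * (X / z) := by
    have c1 : X * z ≤ P * (x * q) := by
      have c2 : (X * z) * z ≤ (P * (x * q)) * z := by
        calc (X * z) * z = X * z ^ 2 := by ring
          _ ≤ x ^ 2 := h4
          _ = x * x := by ring
          _ ≤ x * (P * (q * z)) := by gcongr
          _ = (P * (x * q)) * z := by ring
      exact le_of_mul_le_mul_right c2 hz0
    have c3 : X / (x * q) ≤ P / z := by
      rw [div_le_div_iff₀ (by positivity) hz0]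
      exact c1
    calc ((0 + X) / x + 1) * X / q ≤ (2 * X / x) * X / q := by gcongr
      _ = 2 * X * (X / (x * q)) := by field_simp
      _ ≤ 2 * X * (P / z) := by gcongr
      _ = 2 * P * (X / z) := by ring
  have b2 : q * (X / x + 1) ≤ 2 * (X / z) := by
    have c3 : q / x ≤ 1 / z := by
      rw [div_le_div_iff₀ hx0 hz0, one_mul]
      exact h1
    calc q * (X / x + 1) ≤ q * (2 * X / x) := by gcongr
      _ = 2 * X * (q / x) := by ring
      _ ≤ 2 * X * (1 / z) := by gcongr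
      _ = 2 * (X / z) := by ring
  have b3 : R * ((0 + X) / x + 1) * (X / x + 1) ≤ 4 * (X / z) := by
    have c3 : z * X / (x ^ 2) ≤ 1 / z := by
      rw [div_le_div_iff₀ (by positivity) hz0, one_mul]
      calc z * X * z = X * z ^ 2 := by ring
        _ ≤ x ^ 2 := h4
    calc R * ((0 + X) / x + 1) * (X / x + 1) ≤ z * (2 * X / x) * (2 * X / x) := by
          rw [zero_add]
          gcongr
      _ = 4 * X * (z * X / (x ^ 2)) := by field_simp; ring
      _ ≤ 4 * X * (1 / z) := by gcongr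
      _ = 4 * (X / z) := by ring
  calc ((0 + X) / x + 1) * X / q + (q + R * ((0 + X) / x + 1)) * (X / x + 1)
      = ((0 + X) / x + 1) * X / q + q * (X / x + 1) + R * ((0 + X) / x + 1) * (X / x + 1) := by ring
    _ ≤ 2 * P * (X / z) + 2 * (X / z) + 4 * (X / z) := by gcongr
    _ = (2 * P + 6) * (X / z) := by ring

/-- the choice of `r` -/
theorem choice {p : ℕ} (hp : 2 ≤ p) {ε : ℝ} (hε : 0 < ε) (hε1 : ε < 1) (C : ℝ) :
    ∃ n₀ : ℕ, ∀ n : ℕ, n₀ ≤ n → 1 ≤ n ∧ 1 ≤ expo p ε n ∧ C * expo p ε n ≤ n ∧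
      (p : ℝ) ^ expo p ε n * (n : ℝ) ^ (ε / 2) ≤ n ∧
      (n : ℝ) ≤ p * ((p : ℝ) ^ expo p ε n * (n : ℝ) ^ (ε / 2)) ∧
      (expo p ε n : ℝ) ≤ (n : ℝ) ^ (ε / 2) := by
  have hP : (2 : ℝ) ≤ p := by exact_mod_cast hp
  have hP0 : (0 : ℝ) < p := by linarith
  have hl : 0 < Real.log p := Real.log_pos (by linarith)
  have hθ : 0 < 1 - ε / 2 := by linarith
  have hT : Filter.Tendsto (fun n : ℕ => (n : ℝ) ^ (1 - ε / 2)) Filter.atTop Filter.atTop :=
    (tendsto_rpow_atTop hθ).comp tendsto_natCast_atTop_atTop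
  have E1 := hT.eventually_ge_atTop (p : ℝ)
  have E2 := hT.eventually_ge_atTop |C|
  have E3 : ∀ᶠ n : ℕ in Filter.atTop, Real.log n ≤ Real.log p * (n : ℝ) ^ (ε / 2) := by
    have h1 := (isLittleO_log_rpow_atTop (show 0 < ε / 2 by linarith)).def hl
    have h2 := tendsto_natCast_atTop_atTop.eventually h1
    filter_upwards [h2] with n hn
    rw [Real.norm_eq_abs, Real.norm_eq_abs] at hn
    refine (le_abs_self _).trans (hn.trans (le_of_eq ?_))
    rw [abs_of_nonneg (Real.rpow_nonneg (Nat.cast_nonneg n) _)]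
  obtain ⟨n₀, hn₀⟩ := Filter.eventually_atTop.1 (E1.and (E2.and (E3.and
    (Filter.eventually_ge_atTop 1))))
  refine ⟨n₀, fun n hn => ?_⟩
  obtain ⟨e1, e2, e3, e4⟩ := hn₀ n hn
  have hx : (1 : ℝ) ≤ n := by exact_mod_cast e4
  have hx0 : (0 : ℝ) < n := by linarith
  have hlx : 0 ≤ Real.log n := Real.log_nonneg hx
  obtain ⟨z, hz⟩ : ∃ z : ℝ, z = (n : ℝ) ^ (ε / 2) := ⟨_, rfl⟩
  have hz1 : 1 ≤ z := by
    rw [hz]
    exact Real.one_le_rpow hx (by linarith)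
  have hz0 : 0 < z := by linarith
  have hθz : (n : ℝ) ^ (1 - ε / 2) = n / z := by
    rw [Real.rpow_sub hx0, Real.rpow_one, hz]
  obtain ⟨A, hA⟩ : ∃ A : ℝ, A = (1 - ε / 2) * Real.log n / Real.log p := ⟨_, rfl⟩
  have hA0 : 0 ≤ A := by
    rw [hA]
    positivity
  have hPA : (p : ℝ) ^ A = n / z := by
    rw [← hθz, Real.rpow_def_of_pos hP0, Real.rpow_def_of_pos hx0, hA]
    congr 1
    field_simp
  have hf1 := Nat.floor_le hA0
  have hf2 := Nat.lt_floor_add_one A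
  have hq1 : (p : ℝ) ^ ⌊A⌋₊ ≤ n / z := by
    rw [← hPA, ← Real.rpow_natCast]
    exact Real.rpow_le_rpow_of_exponent_le (by linarith) hf1
  have hq2 : n / z ≤ p * (p : ℝ) ^ ⌊A⌋₊ := by
    rw [← hPA]
    calc (p : ℝ) ^ A ≤ (p : ℝ) ^ ((⌊A⌋₊ : ℝ) + 1) :=
          Real.rpow_le_rpow_of_exponent_le (by linarith) hf2.le
      _ = p * (p : ℝ) ^ ⌊A⌋₊ := by
          rw [Real.rpow_add hP0, Real.rpow_one, Real.rpow_natCast, mul_comm]
  have hr : (⌊A⌋₊ : ℝ) ≤ z := by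
    refine hf1.trans ?_
    rw [hA, div_le_iff₀ hl, mul_comm z, hz]
    refine le_trans ?_ e3
    nlinarith
  have hexp : expo p ε n = ⌊A⌋₊ := by
    unfold expo
    rw [hA]
  rw [hexp]
  refine ⟨e4, ?_, ?_, ?_, ?_, ?_⟩
  · rw [Nat.one_le_floor_iff, hA, le_div_iff₀ hl, one_mul]
    have h1 := Real.log_le_log hP0 e1
    rwa [Real.log_rpow hx0] at h1
  · have h1 : C * (⌊A⌋₊ : ℝ) ≤ |C| * z :=
      mul_le_mul (le_abs_self C) hr (Nat.cast_nonneg _) (abs_nonneg _)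
    refine h1.trans ?_
    have h2 : |C| ≤ n / z := by rw [← hθz]; exact e2
    rwa [le_div_iff₀ hz0] at h2
  · rw [← hz]
    rwa [le_div_iff₀ hz0] at hq1
  · rw [← hz, ← mul_assoc]
    rwa [div_le_iff₀ hz0] at hq2
  · rw [← hz]
    exact hr

end P_COR2

open P_COR2 in
theorem t_COR2 (h1 : S_FIN) : S_COR2 := by
  intro b p d hb hp hodd hpb hd ε hε hε1
  obtain ⟨C₁, hC₁, hF⟩ := h1 b p d hb hp hodd hpb hd
  have hP : (2 : ℝ) ≤ p := by exact_mod_cast hp.two_le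
  obtain ⟨C, hC⟩ : ∃ C : ℝ, C = C₁ * (2 * p + 6) := ⟨_, rfl⟩
  have hCpos : 0 < C := by
    rw [hC]
    positivity
  have hCC : C₁ ≤ C := by
    rw [hC]
    nlinarith
  obtain ⟨n₀, hn₀⟩ := choice hp.two_le hε hε1 C
  refine ⟨C, hCpos, n₀, fun n hn => ?_⟩
  obtain ⟨hn1, hr1, hCr, hq1, hq2, hr⟩ := hn₀ n hn
  generalize expo p ε n = r at hr1 hCr hq1 hq2 hr ⊢
  have hx : (1 : ℝ) ≤ n := by exact_mod_cast hn1
  have hx0 : (0 : ℝ) < n := by linarith
  obtain ⟨z, hz⟩ : ∃ z : ℝ, z = (n : ℝ) ^ (ε / 2) := ⟨_, rfl⟩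
  rw [← hz] at hq1 hq2 hr
  have hz1 : 1 ≤ z := by
    rw [hz]
    exact Real.one_le_rpow hx (by linarith)
  have hz0 : 0 < z := by linarith
  have hq0 : (0 : ℝ) < (p : ℝ) ^ r := by positivity
  refine ⟨hr1, hCr, ?_, ?_⟩
  · refine le_trans ?_ hq1
    exact le_mul_of_one_le_right hq0.le hz1
  intro m t ht1 ht2 hm y hy0 hy1 N hnN hN
  have hX : (n : ℝ) ≤ N := by exact_mod_cast hnN
  have hX0 : (0 : ℝ) < N := by linarith
  have hCr1 : C₁ * r ≤ n := (mul_le_mul_of_nonneg_right hCC (Nat.cast_nonneg r)).trans hCr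
  have hmain := hF n r m t hr1 hCr1 ht1 ht2 hm y hy0 hy1 0 N
  have hzz : z ^ 2 = (n : ℝ) ^ ε := by
    rw [hz, pow_two, ← Real.rpow_add hx0]
    congr 1
    ring
  have h4 : (N : ℝ) * z ^ 2 ≤ (n : ℝ) ^ 2 := by
    rw [Real.rpow_sub hx0, Real.rpow_two, ← hzz, le_div_iff₀ (by positivity)] at hN
    exact hN
  have hnum := num hx hX hq0 (Nat.cast_nonneg r) hz1 (by linarith) hq1 hq2 hr h4
  have h5 : (N : ℝ) ^ (ε / 4) ≤ z := by
    have h6 : (N : ℝ) ≤ (n : ℝ) ^ 2 := by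
      refine le_trans ?_ h4
      exact le_mul_of_one_le_right hX0.le (one_le_pow₀ hz1)
    calc (N : ℝ) ^ (ε / 4) ≤ ((n : ℝ) ^ 2) ^ (ε / 4) :=
          Real.rpow_le_rpow hX0.le h6 (by linarith)
      _ = z := by
          rw [hz, ← Real.rpow_natCast, ← Real.rpow_mul hx0.le]
          congr 1
          push_cast
          ring
  have h7 : (N : ℝ) / z ≤ (N : ℝ) ^ (1 - ε / 4) := by
    rw [Real.rpow_sub hX0, Real.rpow_one]
    exact div_le_div_of_nonneg_left hX0.le (Real.rpow_pos_of_pos hX0 _) h5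
  refine hmain.trans ?_
  push_cast
  calc C₁ * (((0 + (N : ℝ)) / n + 1) * N / (p : ℝ) ^ r +
          ((p : ℝ) ^ r + r * ((0 + (N : ℝ)) / n + 1)) * (N / n + 1))
      ≤ C₁ * ((2 * p + 6) * ((N : ℝ) / z)) := mul_le_mul_of_nonneg_left hnum hC₁.le
    _ ≤ C₁ * ((2 * p + 6) * (N : ℝ) ^ (1 - ε / 4)) := by gcongr
    _ = C * (N : ℝ) ^ (1 - ε / 4) := by rw [hC]; ring

end Pool.Agent.H609.RD
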