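import Pool.Agent.H609.RD.Stm

/-!
# Task CUT: windows are cut at the ends of the blocks
-/

set_option autoImplicit false

namespace Pool.Agent.H609.RD

open Finset
open Pool.Agent.H609.XP (Er Er_add Er_le)

namespace P_CUT

lemma aligned (x : ℕ → ℝ) {y : ℝ} (hy0 : 0 ≤ y) (hy1 : y ≤ 1) (n N : ℕ) (c₁ c₂ : ℝ) (hn : 0 < n)
    (hc1 : 0 ≤ c₁) (hc2 : 0 ≤ c₂)
    (h : ∀ κ s L : ℕ, n * κ ≤ s → s + L ≤ n * κ + n → s + L ≤ N → |Er x y s L| ≤ c₁ * L + c₂) :
    ∀ L κ : ℕ, n * κ + L ≤ N → |Er x y (n * κ) L| ≤ c₁ * L + c₂ * ((L : ℝ) / n + 1) := by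
  intro L
  have hnR : (0 : ℝ) < n := by exact_mod_cast hn
  induction L using Nat.strong_induction_on with
  | _ L ih =>
    intro κ hL
    rcases le_or_gt L n with hLn | hLn
    · have h1 := h κ (n * κ) L le_rfl (by omega) hL
      have h2 : 0 ≤ c₂ * ((L : ℝ) / n) := by positivity
      linarith
    · obtain ⟨L', rfl⟩ : ∃ L', L = n + L' := ⟨L - n, by omega⟩
      rw [Er_add]
      have h1 := ih L' (by omega) (κ + 1) (by rw [Nat.mul_succ]; omega)
      rw [Nat.mul_succ] at h1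
      have h2 := h κ (n * κ) n le_rfl le_rfl (by omega)
      have h3 : (((n + L' : ℕ)) : ℝ) / n = 1 + L' / n := by
        push_cast
        field_simp
      rw [h3]
      push_cast
      calc |Er x y (n * κ) n + Er x y (n * κ + n) L'| ≤
          |Er x y (n * κ) n| + |Er x y (n * κ + n) L'| := abs_add_le _ _
        _ ≤ (c₁ * n + c₂) + (c₁ * L' + c₂ * ((L' : ℝ) / n + 1)) := add_le_add h2 h1
        _ = _ := by ring

end P_CUT

theorem t_CUT : S_CUT := by
  intro x y hy0 hy1 n N c₁ c₂ hn hc1 hc2 h s L hsL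
  have hnR : (0 : ℝ) < n := by exact_mod_cast hn
  have hal := P_CUT.aligned x hy0 hy1 n N c₁ c₂ hn hc1 hc2 h
  set κ := s / n with hκ
  have h1 : n * κ ≤ s := Nat.mul_div_le s n
  have h2 : s < n * κ + n := by
    have := Nat.lt_mul_div_succ s hn
    rw [Nat.mul_succ] at this
    exact this
  rcases le_or_gt (s + L) (n * κ + n) with h3 | h3
  · have h4 := h κ s L h1 h3 hsL
    have h5 : 0 ≤ c₂ * ((L : ℝ) / n) := by positivity
    linarith
  · obtain ⟨L1, hL1⟩ : ∃ L1, s + L1 = n * κ + n := ⟨n * κ + n - s, by omega⟩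
    obtain ⟨L2, rfl⟩ : ∃ L2, L = L1 + L2 := ⟨L - L1, by omega⟩
    rw [Er_add, hL1]
    have h4 := h κ s L1 h1 (by omega) (by omega)
    have h5 := hal L2 (κ + 1) (by rw [Nat.mul_succ]; omega)
    rw [Nat.mul_succ] at h5
    have h6 : (L2 : ℝ) / n ≤ ((L1 + L2 : ℕ) : ℝ) / n := by
      apply div_le_div_of_nonneg_right _ hnR.le
      push_cast
      have : (0 : ℝ) ≤ L1 := Nat.cast_nonneg _
      linarith
    have h7 : c₂ * ((L2 : ℝ) / n) ≤ c₂ * (((L1 + L2 : ℕ) : ℝ) / n) :=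
      mul_le_mul_of_nonneg_left h6 hc2
    calc |Er x y s L1 + Er x y (n * κ + n) L2| ≤ |Er x y s L1| + |Er x y (n * κ + n) L2| :=
          abs_add_le _ _
      _ ≤ (c₁ * L1 + c₂) + (c₁ * L2 + c₂ * ((L2 : ℝ) / n + 1)) := add_le_add h4 h5
      _ ≤ _ := by push_cast at h7 ⊢; linarith

end Pool.Agent.H609.RD
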