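import Pool.Agent.H609.RD.Stm
import Pool.Agent.H609.RI.Degree

/-!
helper297: the degree of `m ^ (1 / d)` (DEG2).
-/

set_option autoImplicit false

namespace Pool.Agent.H609.RD

namespace P_DEG2

open Polynomial
open Pool.Agent.H609.RI (pow_degree_rat)

lemma not_pow {A p w : ℕ} (hp : 2 ≤ p) (hw : 1 ≤ w) (hwA : w ≤ A) (q : ℚ) :
    q ^ p ≠ ((A ^ p + w : ℕ) : ℚ) := by
  intro h
  have h1 := congrArg Rat.den h
  rw [Rat.den_pow, Rat.den_natCast] at h1
  have hd : q.den = 1 := by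
    by_contra hne
    have h2 : 1 < q.den := lt_of_le_of_ne q.den_pos (Ne.symm hne)
    have := Nat.one_lt_pow (by omega : p ≠ 0) h2
    omega
  have hq : q = (q.num : ℚ) := by
    rw [← Rat.num_div_den q, hd]
    simp
  have h3 : (q.num.natAbs) ^ p = A ^ p + w := by
    have h4 : q.num ^ p = ((A ^ p + w : ℕ) : ℤ) := by
      rw [hq] at h
      exact_mod_cast h
    have h5 := congrArg Int.natAbs h4
    rwa [Int.natAbs_pow, Int.natAbs_natCast] at h5
  have h6 : A < q.num.natAbs := by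
    by_contra hle
    push Not at hle
    have := Nat.pow_le_pow_left hle p
    omega
  have h7 := Nat.pow_le_pow_left (Nat.succ_le_of_lt h6) p
  have h8 : A ^ p + w < (A + 1) ^ p := by
    obtain ⟨e, rfl⟩ : ∃ e, p = e + 2 := ⟨p - 2, by omega⟩
    have h9 : A ^ (e + 1) + 1 ≤ (A + 1) ^ (e + 1) := by
      have : A ^ (e + 1) < (A + 1) ^ (e + 1) := Nat.pow_lt_pow_left (by omega) (by omega)
      omega
    calc A ^ (e + 2) + w < (A ^ (e + 1) + 1) * (A + 1) := by
          have h10 : 1 ≤ A ^ (e + 1) := Nat.one_le_pow _ _ (by omega)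
          rw [show A ^ (e + 2) = A ^ (e + 1) * A by rw [← pow_succ]]
          nlinarith
      _ ≤ (A + 1) ^ (e + 1) * (A + 1) := Nat.mul_le_mul_right _ h9
      _ = _ := by rw [← pow_succ]
  rw [Nat.succ_eq_add_one, h3] at h7
  omega

end P_DEG2

open Polynomial P_DEG2 in
open Pool.Agent.H609.RI (pow_degree_rat) in
theorem t_DEG2 : S_DEG2 := by
  intro A d m n w hd hA hn hw hwA hm
  set α : ℝ := (m : ℝ) ^ (1 / (d : ℝ)) with hα
  have hm0 : 0 < m := by
    rcases Nat.eq_zero_or_pos m with h | h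
    · rw [h, mul_zero] at hm
      omega
    · exact h
  have hpos : (0 : ℝ) < (m : ℝ) := by exact_mod_cast hm0
  have hα0 : 0 < α := Real.rpow_pos_of_pos hpos _
  have h1 : α ^ d = (m : ℝ) := by
    rw [hα, one_div]
    exact Real.rpow_inv_natCast_pow hpos.le (by omega)
  have h1' : α ^ d = (((m : ℕ) : ℚ) : ℝ) := by rw [h1]; push_cast; rfl
  obtain ⟨r, hr⟩ := pow_degree_rat hα0 (by omega) h1'
  have hint : IsIntegral ℚ α := by
    refine ⟨X ^ d - C ((m : ℕ) : ℚ), monic_X_pow_sub_C _ (by omega), ?_⟩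
    rw [eval₂_sub, eval₂_X_pow, eval₂_C, h1', eq_ratCast, sub_self]
  set k := (minpoly ℚ α).natDegree with hk
  have hk1 : 0 < k := minpoly.natDegree_pos hint
  have hkd : k ≤ d := by
    have h2 : aeval α (X ^ d - C ((m : ℕ) : ℚ) : ℚ[X]) = 0 := by
      rw [map_sub, map_pow, aeval_X, aeval_C, h1', eq_ratCast, sub_self]
    have h3 := natDegree_le_of_dvd (minpoly.dvd ℚ α h2) (monic_X_pow_sub_C _ (by omega)).ne_zero
    rwa [natDegree_X_pow_sub_C] at h3
  by_contra hne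
  have hlt : k < d := lt_of_le_of_ne hkd hne
  set e := Nat.gcd k d with he
  have he0 : 0 < e := Nat.gcd_pos_of_pos_left _ hk1
  have hek : e ≤ k := Nat.gcd_le_left _ hk1
  obtain ⟨l, hl⟩ : e ∣ d := Nat.gcd_dvd_right _ _
  have hl2 : 2 ≤ l := by
    by_contra h
    have : l ≤ 1 := by omega
    have : e * l ≤ e * 1 := Nat.mul_le_mul_left _ this
    omega
  -- `α ^ e` is rational
  obtain ⟨q, hq⟩ : ∃ q : ℚ, α ^ e = q := by
    have h2 := Nat.gcd_eq_gcd_ab k d
    have h3 : α ^ (e : ℤ) = (α ^ k) ^ (Nat.gcdA k d) * (α ^ d) ^ (Nat.gcdB k d) := by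
      rw [he, h2, zpow_add₀ hα0.ne', zpow_mul, zpow_mul, zpow_natCast, zpow_natCast]
    rw [zpow_natCast, hr, h1'] at h3
    refine ⟨r ^ (Nat.gcdA k d) * ((m : ℕ) : ℚ) ^ (Nat.gcdB k d), ?_⟩
    rw [h3]
    push_cast
    rfl
  have h4 : ((n : ℚ) ^ e * q) ^ l = (((A ^ e) ^ l + w : ℕ) : ℚ) := by
    have h5 : (q : ℝ) ^ l = (((m : ℕ) : ℚ) : ℝ) := by
      rw [← hq, ← pow_mul, ← hl, h1']
    have h6 : q ^ l = ((m : ℕ) : ℚ) := by exact_mod_cast h5
    rw [mul_pow, h6, ← pow_mul, ← pow_mul, ← hl]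
    exact_mod_cast hm
  refine not_pow hl2 hw (hwA.trans ?_) _ h4
  calc A = A ^ 1 := (pow_one A).symm
    _ ≤ A ^ e := Nat.pow_le_pow_right hA he0

end Pool.Agent.H609.RD
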