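import Pool.Agent.H609.RD.Stm

set_option autoImplicit false

namespace Pool.Agent.H609.RD

/-- every residue class has a representative between `1` and `N` -/
theorem P_EX.rep (N : ℕ) [NeZero N] (c : ZMod N) : ∃ t : ℕ, 1 ≤ t ∧ t ≤ N ∧ ((t : ℕ) : ZMod N) = c := by
  rcases Nat.eq_zero_or_pos c.val with h | h
  · refine ⟨N, NeZero.pos N, le_rfl, ?_⟩
    rw [ZMod.natCast_self]
    exact ((ZMod.val_eq_zero c).1 h).symm
  · exact ⟨c.val, h, (ZMod.val_lt c).le, ZMod.natCast_zmod_val c⟩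

theorem t_EX : S_EX := by
  intro p d e B hp hpd
  have : NeZero (p ^ e) := ⟨(pow_pos hp.pos e).ne'⟩
  have hcop : Nat.Coprime (d ^ 2) (p ^ e) :=
    Nat.Coprime.pow 2 e ((Nat.Prime.coprime_iff_not_dvd hp).2 hpd).symm
  obtain ⟨t, ht1, ht2, ht⟩ := P_EX.rep (p ^ e)
    (-(B : ZMod (p ^ e)) * ((d ^ 2 : ℕ) : ZMod (p ^ e))⁻¹)
  have h0 : ((B + d ^ 2 * t : ℕ) : ZMod (p ^ e)) = 0 := by
    rw [Nat.cast_add, Nat.cast_mul, ht, mul_left_comm, ZMod.coe_mul_inv_eq_one _ hcop]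
    ring
  obtain ⟨m, hm⟩ := (ZMod.natCast_eq_zero_iff _ _).1 h0
  exact ⟨t, m, ht1, ht2, hm.symm⟩

end Pool.Agent.H609.RD
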