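import Pool.Agent.H609.RD.Stm

set_option autoImplicit false

namespace Pool.Agent.H609.RD

open Finset
open Pool.Agent.H609.XP (Er)

namespace P_FIN

lemma pow_bd (b p d r t : ℕ) (hb : 2 ≤ b) (hr : 1 ≤ r) (ht : t ≤ p ^ (d * r)) :
    d ^ 2 * t ≤ b ^ ((d * p + d ^ 2) * r) := by
  have h1 : d ^ 2 ≤ 2 ^ (d ^ 2 * r) := by
    calc d ^ 2 ≤ 2 ^ (d ^ 2) := Nat.lt_two_pow_self.le
      _ ≤ 2 ^ (d ^ 2 * r) := Nat.pow_le_pow_right (by norm_num) (Nat.le_mul_of_pos_right _ hr)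
  have h2 : p ^ (d * r) ≤ 2 ^ (d * p * r) := by
    calc p ^ (d * r) ≤ (2 ^ p) ^ (d * r) := Nat.pow_le_pow_left Nat.lt_two_pow_self.le _
      _ = 2 ^ (d * p * r) := by
        rw [← pow_mul]
        congr 1
        ring
  calc d ^ 2 * t ≤ 2 ^ (d ^ 2 * r) * 2 ^ (d * p * r) := Nat.mul_le_mul h1 (ht.trans h2)
    _ = 2 ^ ((d * p + d ^ 2) * r) := by
      rw [← pow_add]
      congr 1
      ring
    _ ≤ b ^ ((d * p + d ^ 2) * r) := Nat.pow_le_pow_left hb _

lemma er_shift (b n : ℕ) (hb : 2 ≤ b) (a y : ℝ) (s L : ℕ) :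
    Er (fun j => (b : ℝ) ^ j * a) y s L =
      Er (fun j => (b : ℝ) ^ j * (a / (b : ℝ) ^ n)) y (s + n) L := by
  have hb1 : (0 : ℝ) < b := by exact_mod_cast (by omega : 0 < b)
  have hb0 : (b : ℝ) ^ n ≠ 0 := pow_ne_zero _ hb1.ne'
  have h : ∀ j : ℕ, (b : ℝ) ^ (s + j) * a = (b : ℝ) ^ (s + n + j) * (a / (b : ℝ) ^ n) := by
    intro j
    have h1 : (b : ℝ) ^ (s + n + j) = (b : ℝ) ^ (s + j) * (b : ℝ) ^ n := by
      rw [← pow_add]
      congr 1
      ring
    rw [h1]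
    field_simp
  unfold Er
  simp only [h]

lemma fin_ineq {C₁ H K P R l X Y : ℝ} (hC : 0 ≤ C₁) (hH : 1 ≤ H) (hK : 0 ≤ K) (hP : 0 < P)
    (hR : 0 ≤ R) (hl : 0 ≤ l) (hX : 0 ≤ X) (hY : Y ≤ X) :
    2 * C₁ * K / P * l + C₁ * (P + 2 * (H * R) * K) * (Y + 2) ≤
      (4 * C₁ * H + H + 2) * (K * l / P + (P + R * K) * (X + 1)) := by
  have hH0 : 0 ≤ H := by linarith
  have hA : 0 ≤ K * l / P := by positivity
  have hB : 0 ≤ (P + R * K) * (X + 1) := by positivity
  have hRK : 0 ≤ R * K := mul_nonneg hR hK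
  have h1 : 2 * C₁ * K / P * l = 2 * C₁ * (K * l / P) := by ring
  have h2 : P + 2 * (H * R) * K ≤ 2 * H * (P + R * K) := by nlinarith
  have h3 : C₁ * (P + 2 * (H * R) * K) * (Y + 2) ≤
      C₁ * (2 * H * (P + R * K)) * (2 * (X + 1)) := by
    have h4 : 0 ≤ P + 2 * (H * R) * K := by positivity
    calc C₁ * (P + 2 * (H * R) * K) * (Y + 2) ≤
        C₁ * (P + 2 * (H * R) * K) * (2 * (X + 1)) := by
          apply mul_le_mul_of_nonneg_left _ (mul_nonneg hC h4)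
          linarith
      _ ≤ C₁ * (2 * H * (P + R * K)) * (2 * (X + 1)) := by
          apply mul_le_mul_of_nonneg_right _ (by positivity)
          exact mul_le_mul_of_nonneg_left h2 hC
  have h5 : C₁ * (2 * H * (P + R * K)) * (2 * (X + 1)) =
      4 * C₁ * H * ((P + R * K) * (X + 1)) := by ring
  have h6 : 2 * C₁ * (K * l / P) ≤ 4 * C₁ * H * (K * l / P) := by
    apply mul_le_mul_of_nonneg_right _ hA
    nlinarith
  have h7 : 0 ≤ (H + 2) * (K * l / P) := mul_nonneg (by linarith) hA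
  have h8 : 0 ≤ (H + 2) * ((P + R * K) * (X + 1)) := mul_nonneg (by linarith) hB
  have h9 : (4 * C₁ * H + H + 2) * (K * l / P + (P + R * K) * (X + 1)) =
      4 * C₁ * H * (K * l / P) + 4 * C₁ * H * ((P + R * K) * (X + 1)) +
        (H + 2) * (K * l / P) + (H + 2) * ((P + R * K) * (X + 1)) := by ring
  rw [h1, h9]
  rw [h5] at h3
  linarith

end P_FIN

open P_FIN

theorem t_FIN (h1 : S_BLO) (h2 : S_CUT) : S_FIN := by
  intro b p d hb hp hodd hpb hd
  obtain ⟨C₁, hC₁, hB⟩ := h1 b p d hb hp hodd hpb hd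
  set H : ℕ := d * p + d ^ 2 with hH
  have hH1 : 1 ≤ H := by
    have h3 : 0 < d ^ 2 := by positivity
    rw [hH]
    omega
  have hHR : (1 : ℝ) ≤ H := by exact_mod_cast hH1
  refine ⟨4 * C₁ * H + H + 2, by positivity, ?_⟩
  intro n r m t hr hn ht1 ht2 hm y hy0 hy1 s L
  have hrR : (1 : ℝ) ≤ r := by exact_mod_cast hr
  have hnH : H * r + 2 ≤ n := by
    have h3 : ((H * r + 2 : ℕ) : ℝ) ≤ n := by
      push_cast
      have h4 : 0 ≤ C₁ * H * r := by positivity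
      have h5 : (4 * C₁ * H + H + 2) * (r : ℝ) = 4 * (C₁ * H * r) + H * r + 2 * r := by ring
      rw [h5] at hn
      linarith
    exact_mod_cast h3
  have hn0 : 0 < n := by omega
  have hnR : (0 : ℝ) < n := by exact_mod_cast hn0
  have hdn : H * r + 2 ≤ d * n := hnH.trans (Nat.le_mul_of_pos_left _ (by omega))
  have hp0 : (0 : ℝ) < p := by exact_mod_cast hp.pos
  have hpR : (0 : ℝ) < (p : ℝ) ^ r := by positivity
  have hblo := hB n r m t (H * r) hr ht1 hdn (pow_bd b p d r t hb hr ht2) hm y hy0 hy1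
  set K : ℝ := ((s : ℝ) + L) / n + 1 with hK
  have hK1 : 1 ≤ K := by
    have h3 : 0 ≤ ((s : ℝ) + L) / n := by positivity
    rw [hK]
    linarith
  have hKn : K * n = s + L + n := by
    rw [hK]
    field_simp
  rw [er_shift b n hb]
  refine (h2 (fun j => (b : ℝ) ^ j * ((m : ℝ) ^ (1 / (d : ℝ)) / (b : ℝ) ^ n)) y hy0 hy1 (d * n)
    (s + n + L) (2 * C₁ * K / (p : ℝ) ^ r) (C₁ * ((p : ℝ) ^ r + 2 * (H * r) * K))
    (Nat.mul_pos (by omega) hn0) (by positivity) (by positivity) ?_ (s + n) L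
    (by omega)).trans ?_
  · intro κ s' L' h3 h4 h5
    refine (hblo κ s' L' h3 h4).trans ?_
    have hk : (κ : ℝ) + 1 ≤ 2 * K := by
      have h6 : d * n * κ ≤ s + n + L := by omega
      have h7 : 2 * n * κ ≤ s + n + L := by
        refine le_trans ?_ h6
        exact Nat.mul_le_mul_right _ (Nat.mul_le_mul_right _ hd)
      have h8 : 2 * (n : ℝ) * κ ≤ s + n + L := by exact_mod_cast h7
      have h9 : 2 * (κ : ℝ) ≤ K := by
        have h10 : 2 * (κ : ℝ) * n ≤ K * n := by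
          rw [hKn]
          linarith
        exact le_of_mul_le_mul_right h10 hnR
      linarith
    have e1 : ((κ : ℝ) + 1) * L' / (p : ℝ) ^ r ≤ 2 * K * L' / (p : ℝ) ^ r := by gcongr
    have e2 : (H : ℝ) * r * (κ + 1) ≤ H * r * (2 * K) := by gcongr
    calc C₁ * (((κ : ℝ) + 1) * L' / (p : ℝ) ^ r + (p : ℝ) ^ r + ((H * r : ℕ) : ℝ) * (κ + 1)) ≤
        C₁ * (2 * K * L' / (p : ℝ) ^ r + (p : ℝ) ^ r + H * r * (2 * K)) := by
          apply mul_le_mul_of_nonneg_left _ hC₁.le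
          push_cast
          linarith
      _ = 2 * C₁ * K / (p : ℝ) ^ r * L' + C₁ * ((p : ℝ) ^ r + 2 * (H * r) * K) := by ring
  · have hY : (L : ℝ) / ((d * n : ℕ) : ℝ) ≤ L / n := by
      push_cast
      apply div_le_div_of_nonneg_left (by positivity) hnR
      have hd2 : (1 : ℝ) ≤ d := by exact_mod_cast (by omega : 1 ≤ d)
      nlinarith
    exact fin_ineq hC₁.le hHR (by linarith) hpR (by positivity) (by positivity) (by positivity) hY

end Pool.Agent.H609.RD
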