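import Pool.Agent.H609.RD.Stm

/-!
Project RD, task TL: the tail of the series.
-/

set_option autoImplicit false

namespace Pool.Agent.H609.RD

open Finset
open Pool.Agent.H609.RI (M Coef)

theorem t_TL : S_TL := by
  intro d a hd hc t B ht hB S hS i
  obtain ⟨-, -, hbd⟩ := hc
  have hd1 : (1 : ℝ) ≤ d := by exact_mod_cast hd
  have hT1 : (1 : ℝ) ≤ t := by exact_mod_cast ht
  obtain ⟨q, hq⟩ : ∃ q : ℝ, q = (B : ℝ) := ⟨_, rfl⟩
  obtain ⟨T, hT⟩ : ∃ T : ℝ, T = (t : ℝ) := ⟨_, rfl⟩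
  rw [← hT] at hT1
  have hq2 : 2 * ((d : ℝ) ^ 2 * T) ≤ q := by
    rw [hq, hT]
    exact_mod_cast hB
  have hT0 : 0 < T := by linarith
  have hdT : 0 < (d : ℝ) ^ 2 * T := by positivity
  have hq0 : 0 < q := by linarith
  rw [← hq, ← hT] at hS ⊢
  have h1 := (hasSum_nat_add_iff' (i + 1)).2 hS
  have h2 := h1.mul_right (q ^ i)
  have hM : (∑ k ∈ range (i + 1), ((a k : ℤ) : ℝ) * (T / q) ^ k) * q ^ i =
      ((M (fun k => a k * (t : ℤ) ^ k) (B : ℤ) i : ℤ) : ℝ) := by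
    unfold M
    push_cast
    rw [← hq, ← hT, Finset.sum_mul]
    refine Finset.sum_congr rfl fun k hk => ?_
    rw [mem_range] at hk
    have e1 : q ^ i = q ^ (i - k) * q ^ k := by rw [← pow_add]; congr 1; omega
    rw [e1, div_pow]
    field_simp
  have hg : HasSum (fun l : ℕ => ((d : ℝ) ^ 2 * T) ^ (i + 1) / q * (1 / 2 : ℝ) ^ l)
      (((d : ℝ) ^ 2 * T) ^ (i + 1) / q * (1 - 1 / 2 : ℝ)⁻¹) :=
    (hasSum_geometric_of_lt_one (by norm_num) (by norm_num)).mul_left _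
  have hb : ∀ l : ℕ, ‖((a (l + (i + 1)) : ℤ) : ℝ) * (T / q) ^ (l + (i + 1)) * q ^ i‖ ≤
      ((d : ℝ) ^ 2 * T) ^ (i + 1) / q * (1 / 2 : ℝ) ^ l := by
    intro l
    have e1 : |((a (l + (i + 1)) : ℤ) : ℝ)| ≤ (d : ℝ) ^ (2 * (l + (i + 1))) := by
      exact_mod_cast hbd (l + (i + 1))
    have e2 : (T / q) ^ (l + (i + 1)) * q ^ i = T ^ (l + (i + 1)) * (q⁻¹ * (q⁻¹) ^ l) := by
      rw [div_pow, show l + (i + 1) = i + (l + 1) by ring, pow_add q, inv_pow, pow_succ q]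
      field_simp
    have e3 : (d : ℝ) ^ 2 * T * q⁻¹ ≤ 1 / 2 := by
      rw [← div_eq_mul_inv, div_le_iff₀ hq0]
      linarith
    have e5 : 0 ≤ T ^ (l + (i + 1)) * (q⁻¹ * (q⁻¹) ^ l) := by positivity
    rw [mul_assoc, e2, Real.norm_eq_abs, abs_mul, abs_of_nonneg e5]
    calc |((a (l + (i + 1)) : ℤ) : ℝ)| * (T ^ (l + (i + 1)) * (q⁻¹ * (q⁻¹) ^ l))
        ≤ (d : ℝ) ^ (2 * (l + (i + 1))) * (T ^ (l + (i + 1)) * (q⁻¹ * (q⁻¹) ^ l)) := by gcongr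
      _ = ((d : ℝ) ^ 2 * T) ^ (i + 1) / q * ((d : ℝ) ^ 2 * T * q⁻¹) ^ l := by
          rw [pow_mul (d : ℝ) 2 (l + (i + 1)), pow_add, pow_add T, mul_pow, mul_pow, mul_pow]
          ring
      _ ≤ ((d : ℝ) ^ 2 * T) ^ (i + 1) / q * (1 / 2 : ℝ) ^ l := by gcongr
  have h3 := HasSum.norm_le_of_bounded h2 hg hb
  rw [Real.norm_eq_abs, sub_mul, hM] at h3
  refine h3.trans (le_of_eq ?_)
  norm_num
  ring

end Pool.Agent.H609.RD

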