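import Pool.Agent.H609.RD.Stm

set_option autoImplicit false

namespace Pool.Agent.H609.RD

open Finset
open Pool.Agent.H609.RI (Coef)

namespace P_VAL4

/-- the closed form -/
theorem closed (d : ℕ) (a : ℕ → ℤ) (ha : Coef d a) (κ : ℕ) :
    (κ.factorial : ℤ) * ((1 - (d : ℤ) * κ) * a κ) =
      (-(d : ℤ)) ^ κ * ∏ i ∈ range κ, ((d : ℤ) * (i + 1) - 1) := by
  induction κ with
  | zero => simp [ha.1]
  | succ κ ih =>
    have h := ha.2.1 κ
    rw [prod_range_succ, pow_succ, Nat.factorial_succ]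
    push_cast
    have e : ((κ : ℤ) + 1) * (κ.factorial : ℤ) * ((1 - (d : ℤ) * ((κ : ℤ) + 1)) * a (κ + 1)) =
        (κ.factorial : ℤ) * (1 - (d : ℤ) * ((κ : ℤ) + 1)) * (((κ : ℤ) + 1) * a (κ + 1)) := by ring
    rw [e, h]
    have e2 : (κ.factorial : ℤ) * (1 - (d : ℤ) * ((κ : ℤ) + 1)) * ((d : ℤ) * (1 - (d : ℤ) * κ) * a κ) =
        -(d : ℤ) * ((d : ℤ) * ((κ : ℤ) + 1) - 1) * ((κ.factorial : ℤ) * ((1 - (d : ℤ) * κ) * a κ)) := by
      ring
    rw [e2, ih]
    ring

theorem val_eq (p d E x y : ℕ) (hp : p.Prime) (hpd : ¬ p ∣ d) (hx : x ≠ 0) (hy : y ≠ 0)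
    (hxE : x < p ^ E) (h : p ^ E ∣ d * y + x) : x.factorization p = y.factorization p := by
  have hk : ∀ k, k ≤ E → (p ^ k ∣ x ↔ p ^ k ∣ y) := by
    intro k hk
    have h1 : p ^ k ∣ d * y + x := (pow_dvd_pow p hk).trans h
    have hc : Nat.Coprime (p ^ k) d := Nat.Coprime.pow_left k ((Nat.Prime.coprime_iff_not_dvd hp).2 hpd)
    constructor
    · intro h2
      exact hc.dvd_of_dvd_mul_left ((Nat.dvd_add_left h2).1 h1)
    · intro h2
      exact (Nat.dvd_add_right (h2.mul_left d)).1 h1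
  have hnE : ¬ p ^ E ∣ x := fun h2 => absurd (Nat.le_of_dvd (Nat.pos_of_ne_zero hx) h2) (by omega)
  have hiff : ∀ k, (p ^ k ∣ x ↔ p ^ k ∣ y) := by
    intro k
    by_cases hkE : k ≤ E
    · exact hk k hkE
    · have hle : p ^ E ∣ p ^ k := pow_dvd_pow p (by omega)
      constructor
      · intro h2
        exact absurd (hle.trans h2) hnE
      · intro h2
        exact absurd ((hk E le_rfl).2 (hle.trans h2)) hnE
  apply le_antisymm
  · exact (hp.pow_dvd_iff_le_factorization hy).1 ((hiff _).1 ((hp.pow_dvd_iff_le_factorization hx).2 le_rfl))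
  · exact (hp.pow_dvd_iff_le_factorization hx).1 ((hiff _).2 ((hp.pow_dvd_iff_le_factorization hy).2 le_rfl))

theorem exN (p d E : ℕ) (hp : p.Prime) (hpd : ¬ p ∣ d) (hE : 1 < p ^ E) :
    ∃ N, N < p ^ E ∧ p ^ E ∣ d * (N + 1) - 1 ∧ 1 ≤ d * (N + 1) := by
  have hc : Nat.Coprime d (p ^ E) :=
    (Nat.Coprime.pow_left E ((Nat.Prime.coprime_iff_not_dvd hp).2 hpd)).symm
  obtain ⟨m, hm, hm1⟩ := Nat.exists_mul_mod_eq_one_of_coprime hc hE
  have hm0 : m ≠ 0 := by
    rintro rfl
    simp at hm1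
  obtain ⟨N, rfl⟩ : ∃ N, m = N + 1 := ⟨m - 1, by omega⟩
  refine ⟨N, by omega, ?_, ?_⟩
  · have := Nat.dvd_sub_mod (n := p ^ E) (d * (N + 1))
    rw [hm1] at this
    exact this
  · by_contra hh
    have : d * (N + 1) = 0 := by omega
    rw [this] at hm1
    simp at hm1

end P_VAL4

open P_VAL4 in
theorem t_VAL4 : S_VAL4 := by
  intro p d a hp hd hpd ha κ
  rcases Nat.eq_zero_or_pos κ with rfl | hκ
  · refine ⟨0, by simp, ?_⟩
    intro h
    have h1 : (1 - (d : ℤ) * ((0 : ℕ) : ℤ)) * a 0 = 1 := by simp [ha.1]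
    rw [h1, zero_add, pow_one] at h
    have := Int.isUnit_iff.1 (isUnit_of_dvd_one h)
    have h2 := hp.two_le
    omega
  have hdκ : d * κ ≠ 0 := by positivity
  obtain ⟨E, hE⟩ : ∃ E, E = Nat.log p (d * κ) := ⟨_, rfl⟩
  have hE1 : p ^ E ≤ d * κ := hE ▸ Nat.pow_log_le_self p hdκ
  have hE2 : d * κ < p ^ (E + 1) := hE ▸ Nat.lt_pow_succ_log_self hp.one_lt _
  have hdκ2 : 2 ≤ d * κ := by nlinarith
  obtain ⟨N, hN, hN1, hN2⟩ := exN p d (E + 1) hp hpd (by omega)
  have hkey : ∀ i, i < κ → i ≤ N → p ^ (E + 1) ∣ d * (N - i) + (d * (i + 1) - 1) := by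
    intro i _ hiN
    have : d * (N - i) + (d * (i + 1) - 1) = d * (N + 1) - 1 := by
      have h1 : 1 ≤ d * (i + 1) := by nlinarith
      have h2 : d * (N - i) + d * (i + 1) = d * (N + 1) := by
        rw [← Nat.mul_add]
        congr 1
        omega
      omega
    rw [this]
    exact hN1
  have hlt : ∀ i, i < κ → d * (i + 1) - 1 < p ^ (E + 1) := by
    intro i hi
    have : d * (i + 1) ≤ d * κ := Nat.mul_le_mul_left d hi
    omega
  have hpos : ∀ i : ℕ, d * (i + 1) - 1 ≠ 0 := by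
    intro i
    have : 2 * 1 ≤ d * (i + 1) := Nat.mul_le_mul hd (by omega)
    omega
  have hκN : κ ≤ N := by
    by_contra hh
    have h1 := hkey N (by omega) le_rfl
    rw [Nat.sub_self, Nat.mul_zero, Nat.zero_add] at h1
    have h2 := Nat.le_of_dvd (Nat.pos_of_ne_zero (hpos N)) h1
    have h3 := hlt N (by omega)
    omega
  refine ⟨(Nat.choose N κ).factorization p, ?_, ?_⟩
  · have h1 : p ^ (Nat.choose N κ).factorization p ≤ N := Nat.pow_factorization_choose_le (by omega)
    have h2 : p ^ (Nat.choose N κ).factorization p < p ^ (E + 1) := lt_of_le_of_lt h1 hN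
    have h3 : (Nat.choose N κ).factorization p < E + 1 := (Nat.pow_lt_pow_iff_right hp.one_lt).1 h2
    have h4 : p ^ (Nat.choose N κ).factorization p ≤ p ^ E :=
      Nat.pow_le_pow_right hp.pos (by omega)
    omega
  · intro hdiv
    obtain ⟨v, hv⟩ : ∃ v, v = (Nat.choose N κ).factorization p := ⟨_, rfl⟩
    obtain ⟨f, hf⟩ : ∃ f, f = (κ.factorial).factorization p := ⟨_, rfl⟩
    rw [← hv] at hdiv
    obtain ⟨P, hP⟩ : ∃ P, P = ∏ i ∈ range κ, (d * (i + 1) - 1) := ⟨_, rfl⟩
    have hP0 : P ≠ 0 := by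
      rw [hP]
      exact Finset.prod_ne_zero_iff.2 fun i _ => hpos i
    -- the valuation of P
    have hPv : P.factorization p = v + f := by
      have e1 : P.factorization p = ∑ i ∈ range κ, (d * (i + 1) - 1).factorization p := by
        rw [hP, Nat.factorization_prod_apply (fun i _ => hpos i)]
      have e2 : (N.descFactorial κ).factorization p = ∑ i ∈ range κ, (N - i).factorization p := by
        rw [Nat.descFactorial_eq_prod_range, Nat.factorization_prod_apply]
        intro i hi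
        have := Finset.mem_range.1 hi
        omega
      have e3 : ∑ i ∈ range κ, (d * (i + 1) - 1).factorization p = ∑ i ∈ range κ, (N - i).factorization p := by
        refine Finset.sum_congr rfl fun i hi => ?_
        have hi' := Finset.mem_range.1 hi
        exact val_eq p d (E + 1) _ _ hp hpd (hpos i) (by omega) (hlt i hi') (hkey i hi' (by omega))
      rw [e1, e3, ← e2, Nat.descFactorial_eq_factorial_mul_choose,
        Nat.factorization_mul (Nat.factorial_ne_zero κ) (Nat.choose_pos hκN).ne']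
      rw [Finsupp.add_apply, ← hv, ← hf, Nat.add_comm]
    have hcl := closed d a ha κ
    have hPc : (∏ i ∈ range κ, ((d : ℤ) * (i + 1) - 1)) = (P : ℤ) := by
      rw [hP]
      push_cast
      refine Finset.prod_congr rfl fun i _ => ?_
      have h1 : 1 ≤ d * (i + 1) := by have := hpos i; omega
      rw [Nat.cast_sub h1]
      push_cast
      ring
    rw [hPc] at hcl
    have hfd : (p : ℤ) ^ f ∣ (κ.factorial : ℤ) := by
      have : p ^ f ∣ κ.factorial :=
        (hp.pow_dvd_iff_le_factorization (Nat.factorial_ne_zero κ)).2 (le_of_eq hf)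
      exact_mod_cast this
    have hd1 : (p : ℤ) ^ (v + f + 1) ∣ (-(d : ℤ)) ^ κ * (P : ℤ) := by
      rw [← hcl]
      have := mul_dvd_mul hfd hdiv
      rw [← pow_add] at this
      rw [show v + f + 1 = f + (v + 1) by ring]
      exact this
    have hcop : IsCoprime ((p : ℤ) ^ (v + f + 1)) ((-(d : ℤ)) ^ κ) := by
      apply IsCoprime.pow
      apply IsCoprime.neg_right
      exact Nat.isCoprime_iff_coprime.2 ((Nat.Prime.coprime_iff_not_dvd hp).2 hpd)
    have hd2 : (p : ℤ) ^ (v + f + 1) ∣ (P : ℤ) := hcop.dvd_of_dvd_mul_left hd1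
    have hd3 : p ^ (v + f + 1) ∣ P := by exact_mod_cast hd2
    have := (hp.pow_dvd_iff_le_factorization hP0).1 hd3
    omega

end Pool.Agent.H609.RD
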