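import Pool.Agent.H609.RD.Stm

set_option autoImplicit false

namespace Pool.Agent.H609.RD

open Finset
open Pool.Agent.H609.RI (M Coef)

namespace P_WID

theorem M_zero (f : ℕ → ℤ) (B : ℤ) : M f B 0 = f 0 := by
  unfold M
  simp

theorem M_succ (f : ℕ → ℤ) (B : ℤ) (κ : ℕ) : M f B (κ + 1) = f (κ + 1) + B * M f B κ := by
  unfold M
  rw [sum_range_succ, mul_sum, Nat.sub_self, pow_zero, mul_one, add_comm]
  congr 1
  refine sum_congr rfl fun k hk => ?_
  rw [mem_range] at hk
  rw [show κ + 1 - k = (κ - k) + 1 by omega, pow_succ]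
  ring

end P_WID

open P_WID in
theorem t_WID : S_WID := by
  intro d a ha t B Z hZ κ
  induction κ with
  | zero =>
    rw [M_zero]
    simp
  | succ κ ih =>
    obtain ⟨q, hq⟩ := ih
    obtain ⟨c, hc⟩ := hZ
    have h1 := ha.2.1 κ
    rw [M_succ]
    refine ⟨c * M (fun k => a k * t ^ k) B κ - (d : ℤ) ^ 2 * t * q, ?_⟩
    push_cast
    rw [pow_succ]
    linear_combination (t ^ κ * t * (d : ℤ)) * h1 - ((d : ℤ) ^ 2 * t) * hq +
      (M (fun k => a k * t ^ k) B κ) * hc

end Pool.Agent.H609.RD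

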