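import Pool.Agent.H609.RI.Stm

/-!
# The digits of the `d`-th roots of explicit integers: statements

Aim: let `b ≥ 2`, let `p` be an odd prime, `p ∤ b`, `d ≥ 2`, and let `m` be an integer with
`p ^ (d r) m = b ^ (d n) + d ^ 2 t`, `1 ≤ t ≤ p ^ (d r)`. Then the digits of `m ^ (1 / d)` in base `b` are
equidistributed in every window `s ≤ j < s + L` of places, up to an error of at most
`C (K L / p ^ r + (p ^ r + r K) (L / n + 1))`, `K = (s + L) / n + 1`.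

The idea: `(1 + d ^ 2 x) ^ (1 / d) = ∑ a k x ^ k` with integers `a k` (`RI.Coef`, `RI.S_ROOT`, proved in
`RI/P_ROOT.lean`), so with `B = b ^ (d n)` one has `p ^ r m ^ (1 / d) = b ^ n ∑ a k t ^ k B ^ (-k)`. In the block
`κ` the digits are those of `U / p ^ r`, `U = ∑_{k ≤ κ} a k t ^ k B ^ (κ - k)`, and as `B ≡ - d ^ 2 t` modulo
`p ^ (d r)`, one has `U ≡ t ^ κ (1 - d κ) a κ` modulo `p ^ r`.
-/

set_option autoImplicit false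

namespace Pool.Agent.H609.RD

open Finset
open Pool.Agent.H609.XP (Er)
open Pool.Agent.H609.RI (M Coef)

/-- **WID** (pure algebra). Recall `M f B 0 = f 0`, `M f B (κ + 1) = f (κ + 1) + B * M f B κ` (prove it first, from
the definition of `RI.M`, `sum_range_succ`). Induction on `κ`: modulo `Z` one has `B ≡ - d ^ 2 t`, so
`M f B (κ + 1) ≡ a (κ+1) t ^ (κ+1) - d ^ 2 t t ^ κ (1 - d κ) a κ = t ^ (κ+1) (a (κ+1) - d * (d (1 - d κ) a κ))`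
and `d (1 - d κ) a κ = (κ + 1) a (κ + 1)` by `Coef`, so this is `t ^ (κ+1) (1 - d (κ + 1)) a (κ + 1)`. -/
def S_WID : Prop := ∀ (d : ℕ) (a : ℕ → ℤ), Coef d a → ∀ (t B Z : ℤ), Z ∣ B + (d : ℤ) ^ 2 * t →
  ∀ κ : ℕ, Z ∣ M (fun k => a k * t ^ k) B κ - t ^ κ * ((1 - (d : ℤ) * κ) * a κ)

/-- **VAL4.** Up to a power of `d` and a sign, `(1 - d κ) a κ` is `N κ = (∏_{i=1}^{κ} (d i - 1)) / κ !`: from
`Coef`, by induction, `κ ! * ((1 - d κ) a κ) = (-d) ^ κ ∏_{i=1}^{κ} (d i - 1)` (indeed `w κ = (1 - d κ) a κ` satisfies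
`(κ + 1) w (κ + 1) = - d (d (κ + 1) - 1) w κ`). Let `κ ≥ 1` (for `κ = 0` take `v = 0`). The exact power of `p` in
`∏ (d i - 1)` is `∑_{e ≥ 1} #{1 ≤ i ≤ κ : p ^ e ∣ d i - 1}`; the `e`-th term is at most `κ / p ^ e + 1` (rounded down;
`d` is invertible modulo `p ^ e`, so the `i` form one residue class), and it is `0` if `p ^ e > d κ`; the exact
power of `p` in `κ !` is `∑ κ / p ^ e` (rounded down). So `v ≤ #{e ≥ 1 : p ^ e ≤ d κ}`, `p ^ v ≤ d κ`.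

Another way: let `p ^ E > d κ` be the smallest such power (`p ^ (E-1) ≤ d κ`), and `N` the natural number
`κ ≤ N < p ^ E + κ`, hmm, or rather choose `N < p ^ E` with `d N ≡ 1 - d` modulo `p ^ E`. Then for `i < κ`
`d (N - i) ≡ 1 - d (i + 1)` modulo `p ^ E`, and `0 < |1 - d (i + 1)| < p ^ E`, so `N - i ≠ 0` and `N - i` and
`1 - d (i + 1)` have the same power of `p`, smaller than `p ^ E`; so `N ≥ κ`, and `choose N κ` and `(1 - d κ) a κ`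
have the same power `p ^ v` of `p`, and `p ^ v ≤ N < p ^ E` (`Nat.factorization_choose_le_log` or
`Nat.pow_factorization_choose_le`), so `v ≤ E - 1` and `p ^ v ≤ p ^ (E - 1) ≤ d κ`. -/
def S_VAL4 : Prop := ∀ (p d : ℕ) (a : ℕ → ℤ), p.Prime → 2 ≤ d → ¬ p ∣ d → Coef d a → ∀ κ : ℕ,
  ∃ v : ℕ, p ^ v ≤ d * κ + 1 ∧ ¬ ((p : ℤ) ^ (v + 1) ∣ (1 - (d : ℤ) * κ) * a κ)

/-- **TL** (the tail; adaptation of `RI.t_TAIL`, file `RI/P_TAIL.lean`). Proof.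
`S B ^ κ - M f B κ = ∑_{k > κ} a k t ^ k B ^ (κ - k)`, and for `k = κ + 1 + l` the absolute value is at most
`(d ^ 2 t) ^ (κ + 1) / B * (d ^ 2 t / B) ^ l` with `d ^ 2 t / B ≤ 1 / 2`: a geometric series. -/
def S_TL : Prop := ∀ (d : ℕ) (a : ℕ → ℤ), 1 ≤ d → Coef d a → ∀ t B : ℕ, 1 ≤ t →
  2 * (d ^ 2 * t) ≤ B → ∀ S : ℝ, HasSum (fun k : ℕ => ((a k : ℤ) : ℝ) * ((t : ℝ) / B) ^ k) S →
    ∀ κ : ℕ, |S * (B : ℝ) ^ κ - ((M (fun k => a k * (t : ℤ) ^ k) (B : ℤ) κ : ℤ) : ℝ)| ≤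
      2 * ((d : ℝ) ^ 2 * t) ^ (κ + 1) / B

/-- **CUT** (windows are cut at the ends of the blocks `[n κ, n κ + n)`). Proof. First for `s = n κ`: strong
induction on `L`: `|Er| ≤ c₁ L + c₂ (L / n + 1)` (if `L ≤ n` by the hypothesis, otherwise `L = n + L'` and
`XP.Er_add`). In general, let `s` be in the block `κ = s / n`, with the end `e = n κ + n`: if `s + L ≤ e` use the
hypothesis, otherwise cut at `e = n (κ + 1)` and use the hypothesis for the first part and the first case for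
the rest. Model: `XP.Er_aligned`, `XP.Er_all` (file `XP/Block.lean`). `XP.Er_le` for `L = 0` if needed. -/
def S_CUT : Prop := ∀ (x : ℕ → ℝ) (y : ℝ), 0 ≤ y → y ≤ 1 → ∀ (n N : ℕ) (c₁ c₂ : ℝ), 0 < n →
  0 ≤ c₁ → 0 ≤ c₂ →
  (∀ κ s L : ℕ, n * κ ≤ s → s + L ≤ n * κ + n → s + L ≤ N → |Er x y s L| ≤ c₁ * L + c₂) →
  ∀ s L : ℕ, s + L ≤ N → |Er x y s L| ≤ c₁ * L + c₂ * ((L : ℝ) / n + 2)

/-- **BLO** (one block): `S_WID → S_VAL4 → S_TL → S_BLO`; `RI.t_ROOT : RI.S_ROOT` (file `RI/P_ROOT.lean`) and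
`RI.t_BK1 : RI.S_BK1` (file `RI/P_BK1.lean`) can be cited. Proof. Let `B = b ^ (d n)`, `x₀ = t / B`,
`S = (1 + d ^ 2 x₀) ^ (1 / d)`. As `(p ^ r) ^ d m = B (1 + d ^ 2 x₀)`, one has `p ^ r m ^ (1 / d) = b ^ n S`
(`Real.mul_rpow`, `Real.pow_rpow_inv_natCast`), so `x j = b ^ j (m ^ (1 / d) / b ^ n) = b ^ j S / p ^ r`. `t_ROOT` gives
`a` with `Coef d a` and the `HasSum` (`4 d ^ 2 x₀ ≤ 1`, since `4 d ^ 2 t ≤ b ^ (h + 2) ≤ B`). `U = M (a k t ^ k) B κ`.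
`p ∤ d` and `p ∤ t`, as `p ∣ B + d ^ 2 t` (`r ≥ 1`) and `p ∤ b`. `v` from `S_VAL4`. If `r ≤ v`, then
`p ^ r ≤ p ^ v ≤ d κ + 1 ≤ d (κ + 1)` and `|Er| ≤ L ≤ d (κ + 1) L / p ^ r` (`XP.Er_le`). Let `v < r`. By `S_WID`
with `Z = p ^ r`, `p ^ (v + 1) ∤ U`. So `U = p ^ w V`, `p ∤ V`, `w ≤ v`; let `r' = r - w`. Apply `t_BK1` with `V`, `r'`,
block length `d n`, `A = (d n) κ`, `g = 2 + h (κ + 1)`: if `t' + g ≤ d n`, then
`x (A + t') - b ^ t' V / p ^ r' = b ^ t' (S B ^ κ - U) / p ^ r`, of absolute value at most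
`b ^ t' 2 (b ^ h) ^ (κ + 1) / B / p ^ r ≤ 2 / b ^ 2 / p ^ r ≤ 1 / (2 p ^ r) ≤ 1 / (2 p ^ r')`. The result is
`C₁ (L / p ^ r' + p ^ r' + g)` with `1 / p ^ r' = p ^ w / p ^ r ≤ (d κ + 1) / p ^ r`, `p ^ r' ≤ p ^ r`, and `2 ≤ 2 p ^ r`. -/
def S_BLO : Prop := ∀ (b p d : ℕ), 2 ≤ b → p.Prime → Odd p → ¬ p ∣ b → 2 ≤ d → ∃ C : ℝ, 0 < C ∧
  ∀ n r m t h : ℕ, 1 ≤ r → 1 ≤ t → h + 2 ≤ d * n → d ^ 2 * t ≤ b ^ h →
    p ^ (d * r) * m = b ^ (d * n) + d ^ 2 * t → ∀ y : ℝ, 0 ≤ y → y ≤ 1 →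
      ∀ κ s L : ℕ, d * n * κ ≤ s → s + L ≤ d * n * κ + d * n →
        |Er (fun j => (b : ℝ) ^ j * ((m : ℝ) ^ (1 / (d : ℝ)) / (b : ℝ) ^ n)) y s L| ≤
          C * ((κ + 1) * L / (p : ℝ) ^ r + (p : ℝ) ^ r + h * (κ + 1))

/-- **FIN**: `S_BLO → S_CUT → S_FIN`. Proof. With `x j = b ^ j m ^ (1 / d)` and
`x' j = b ^ j (m ^ (1 / d) / b ^ n)` one has `x j = x' (j + n)`, so `Er x y s L = Er x' y (s + n) L` (unfold `Er`).
Let `h = (d p + d ^ 2) r`; then `d ^ 2 t ≤ d ^ 2 p ^ (d r) ≤ 2 ^ (d ^ 2) (2 ^ p) ^ (d r) ≤ b ^ h`, and `h + 2 ≤ d n` if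
`n ≥ C₀ r` with a suitable `C₀`. Let `K = (s + L) / n + 1` (real). The `κ` of the blocks (of length `d n`) which
meet `[s + n, s + n + L)` satisfy `d n κ ≤ s + n + L`, so `κ + 1 ≤ 2 K` (`d ≥ 2`). So `S_CUT` (block length `d n`,
`N = s + n + L`, `c₁ = 2 C₁ K / p ^ r`, `c₂ = C₁ (p ^ r + 2 h K)`) gives the claim, as `L / (d n) + 2 ≤ 2 (L / n + 1)`.
(In the hypothesis of `S_CUT` with `L = 0` the `κ` may be large: then use `Er = 0`, `XP.Er_le`; or note that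
`d n κ ≤ s ≤ s + L ≤ N` anyway.) -/
def S_FIN : Prop := ∀ (b p d : ℕ), 2 ≤ b → p.Prime → Odd p → ¬ p ∣ b → 2 ≤ d → ∃ C : ℝ, 0 < C ∧
  ∀ n r m t : ℕ, 1 ≤ r → C * r ≤ n → 1 ≤ t → t ≤ p ^ (d * r) →
    p ^ (d * r) * m = b ^ (d * n) + d ^ 2 * t → ∀ y : ℝ, 0 ≤ y → y ≤ 1 → ∀ s L : ℕ,
      |Er (fun j => (b : ℝ) ^ j * (m : ℝ) ^ (1 / (d : ℝ))) y s L| ≤
        C * ((((s : ℝ) + L) / n + 1) * L / (p : ℝ) ^ r +
          ((p : ℝ) ^ r + r * (((s : ℝ) + L) / n + 1)) * (L / n + 1))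

/-- **DEG2** (adaptation of `RI.degree`, file `RI/Degree.lean`; `RI.pow_degree_rat` can be cited). Proof. The
number `α = m ^ (1 / d)` has the same degree as `q α = (A ^ d + w) ^ (1 / d)` (or argue directly with `α`:
if the degree `k` of `α` is `< d`, `e = gcd k d`, `l = d / e ≥ 2`, then `α ^ e` is rational, so `(q α) ^ e` is a
rational number whose `l`-th power is `(q α) ^ d = A ^ d + w = (A ^ e) ^ l + w`; it is a positive integer, bigger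
than `A ^ e`; but `(A ^ e + 1) ^ l > (A ^ e) ^ l + w` because `w ≤ A ≤ A ^ e`). -/
def S_DEG2 : Prop := ∀ A d m q w : ℕ, 2 ≤ d → 1 ≤ A → 1 ≤ q → 1 ≤ w → w ≤ A →
  q ^ d * m = A ^ d + w → (minpoly ℚ ((m : ℝ) ^ (1 / (d : ℝ)))).natDegree = d

/-- **EX**. Proof. `d ^ 2` is invertible modulo `p ^ e`, so there is `t` with `B + d ^ 2 t ≡ 0` modulo `p ^ e`, and one
can take `1 ≤ t ≤ p ^ e`. -/
def S_EX : Prop := ∀ p d e B : ℕ, p.Prime → ¬ p ∣ d →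
  ∃ t m : ℕ, 1 ≤ t ∧ t ≤ p ^ e ∧ p ^ e * m = B + d ^ 2 * t

end Pool.Agent.H609.RD
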