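import Pool.Agent.H609.RD.Stm

/-!
# The digits of the `d`-th roots of explicit integers: the first `N` digits
-/

set_option autoImplicit false

namespace Pool.Agent.H609.RD

open Finset
open Pool.Agent.H609.XP (Er)

/-- **COR**: `S_FIN → S_COR`. Proof. Let `C₁` be the constant of `S_FIN`. Take `r = ⌊(1 - ε / 2) log n / log p⌋₊`, so
that `n ^ (1 - ε / 2) / p ≤ p ^ r ≤ n ^ (1 - ε / 2)`; for large `n` one has `1 ≤ r`, `C₁ r ≤ n`, `r ≤ n ^ (ε / 2)`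
(and `C r ≤ n` for the final `C`). For `s = 0`, `L = N`, `n ≤ N ≤ n ^ (2 - ε)` one has `N / n + 1 ≤ 2 N / n`, so the bound
of `S_FIN` is at most `C₁ (2 N ^ 2 / (n p ^ r) + (p ^ r + 2 r N / n) 2 N / n)`, which is `N` times at most
`C₁ (2 p N n ^ (-2 + ε / 2) + 2 n ^ (-ε / 2) + 4 r N / n ^ 2) ≤ C₁ (2 p + 2 + 4) n ^ (-ε / 2)`
(`N ≤ n ^ (2 - ε)`, `r ≤ n ^ (ε / 2)`), and `n ^ (-ε / 2) ≤ N ^ (-ε / 4)` because `N ≤ n ^ 2`. -/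
def S_COR : Prop := ∀ (b p d : ℕ), 2 ≤ b → p.Prime → Odd p → ¬ p ∣ b → 2 ≤ d →
  ∀ ε : ℝ, 0 < ε → ε < 1 → ∃ C : ℝ, 0 < C ∧ ∃ n₀ : ℕ, ∀ n : ℕ, n₀ ≤ n →
    ∃ r : ℕ, 1 ≤ r ∧ C * r ≤ n ∧ (p : ℝ) ^ r ≤ n ∧
      ∀ m t : ℕ, 1 ≤ t → t ≤ p ^ (d * r) → p ^ (d * r) * m = b ^ (d * n) + d ^ 2 * t →
        ∀ y : ℝ, 0 ≤ y → y ≤ 1 → ∀ N : ℕ, n ≤ N → (N : ℝ) ≤ (n : ℝ) ^ (2 - ε) →
          |Er (fun j => (b : ℝ) ^ j * (m : ℝ) ^ (1 / (d : ℝ))) y 0 N| ≤ C * (N : ℝ) ^ (1 - ε / 4)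

end Pool.Agent.H609.RD
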