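import Pool.Agent.H609.RD.Stm

/-!
# The digits of the `d`-th roots of explicit integers: the first `N` digits, explicit `r`
-/

set_option autoImplicit false

namespace Pool.Agent.H609.RD

open Finset
open Pool.Agent.H609.XP (Er)

/-- the exponent `r` for given `n` and `ε`: the integral part of `(1 - ε / 2) log n / log p` -/
noncomputable def expo (p : ℕ) (ε : ℝ) (n : ℕ) : ℕ := ⌊(1 - ε / 2) * Real.log n / Real.log p⌋₊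

/-- **COR2**, as `S_COR`, with the explicit `r` -/
def S_COR2 : Prop := ∀ (b p d : ℕ), 2 ≤ b → p.Prime → Odd p → ¬ p ∣ b → 2 ≤ d →
  ∀ ε : ℝ, 0 < ε → ε < 1 → ∃ C : ℝ, 0 < C ∧ ∃ n₀ : ℕ, ∀ n : ℕ, n₀ ≤ n →
    1 ≤ expo p ε n ∧ C * expo p ε n ≤ n ∧ (p : ℝ) ^ expo p ε n ≤ n ∧
      ∀ m t : ℕ, 1 ≤ t → t ≤ p ^ (d * expo p ε n) →
        p ^ (d * expo p ε n) * m = b ^ (d * n) + d ^ 2 * t →
        ∀ y : ℝ, 0 ≤ y → y ≤ 1 → ∀ N : ℕ, n ≤ N → (N : ℝ) ≤ (n : ℝ) ^ (2 - ε) →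
          |Er (fun j => (b : ℝ) ^ j * (m : ℝ) ^ (1 / (d : ℝ))) y 0 N| ≤ C * (N : ℝ) ^ (1 - ε / 4)

end Pool.Agent.H609.RD
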